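import Mathlib

set_option autoImplicit false

namespace Pool.Agent.Helper34.AD

open Finset

/-- Weighted averaging: one choice of positive weight keeps all potentials under control. -/
theorem avg_w {α ι β : Type*} [Fintype α] (p : α → ℝ) (hp : ∀ a, 0 ≤ p a) (hpos : 0 < ∑ a, p a)
    (Nv : Finset ι) (R : Finset β)
    (w : ι → β → ℕ) (bad : ι → β → α → Prop) [∀ v r a, Decidable (bad v r a)]
    (Bd : ι → ℝ) (ω ρ₀ η : ℝ) (hω : 1 ≤ ω)
    (hBd : ∀ v ∈ Nv, 0 < Bd v) (hold : ∀ v ∈ Nv, ∑ r ∈ R, ω ^ (w v r) ≤ Bd v)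
    (hbad : ∀ v ∈ Nv, ∀ r ∈ R, ∑ a ∈ univ.filter (fun a => bad v r a), p a ≤ (∑ a, p a) * ρ₀)
    (hρ₀ : 0 ≤ ρ₀)
    (hη : (Nv.card : ℝ) * ((ω - 1) * ρ₀) ≤ η) :
    ∃ a, 0 < p a ∧ ∀ v ∈ Nv, ∑ r ∈ R, ω ^ (w v r + if bad v r a then 1 else 0) ≤ (1 + η) * Bd v := by
  classical
  set Pt := ∑ a, p a with hPt
  set g : ι → α → ℝ := fun v a => (∑ r ∈ R, ω ^ (w v r) * (if bad v r a then (ω - 1) else 0)) / Bd v
    with hg
  have hω0 : (0 : ℝ) ≤ ω - 1 := by linarith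
  have hω1 : (0 : ℝ) < ω := by linarith
  have hgn : ∀ v ∈ Nv, ∀ a, 0 ≤ g v a := by
    intro v hv a
    rw [hg]
    have := hBd v hv
    refine div_nonneg (sum_nonneg (fun r _ => ?_)) this.le
    have : (0 : ℝ) ≤ (if bad v r a then (ω - 1) else 0) := by split_ifs <;> simp [hω0]
    positivity
  have hsum1 : ∀ v ∈ Nv, ∑ a, p a * g v a ≤ (ω - 1) * ρ₀ * Pt := by
    intro v hv
    have hB := hBd v hv
    rw [hg]
    simp only
    have e0 : ∑ a, p a * ((∑ r ∈ R, ω ^ (w v r) * (if bad v r a then (ω - 1) else 0)) / Bd v) =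
        (∑ a, ∑ r ∈ R, p a * (ω ^ (w v r) * (if bad v r a then (ω - 1) else 0))) / Bd v := by
      rw [sum_div]
      refine sum_congr rfl (fun a _ => ?_)
      rw [← mul_sum, mul_div_assoc]
    rw [e0, div_le_iff₀ hB, sum_comm]
    calc ∑ r ∈ R, ∑ a, p a * (ω ^ (w v r) * (if bad v r a then (ω - 1) else 0))
        = ∑ r ∈ R, ω ^ (w v r) * ((ω - 1) * ∑ a ∈ univ.filter (fun a => bad v r a), p a) := by
          refine sum_congr rfl (fun r _ => ?_)
          rw [sum_filter, mul_sum, mul_sum]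
          refine sum_congr rfl (fun a _ => ?_)
          split_ifs <;> ring
      _ ≤ ∑ r ∈ R, ω ^ (w v r) * ((ω - 1) * (Pt * ρ₀)) := by
          refine sum_le_sum (fun r hr => ?_)
          refine mul_le_mul_of_nonneg_left ?_ (by positivity)
          exact mul_le_mul_of_nonneg_left (hbad v hv r hr) hω0
      _ = (∑ r ∈ R, ω ^ (w v r)) * ((ω - 1) * (Pt * ρ₀)) := (sum_mul _ _ _).symm
      _ ≤ Bd v * ((ω - 1) * (Pt * ρ₀)) := by
          refine mul_le_mul_of_nonneg_right (hold v hv) (by positivity)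
      _ = (ω - 1) * ρ₀ * Pt * Bd v := by ring
  have hsum2 : ∑ a, p a * ∑ v ∈ Nv, g v a ≤ η * Pt := by
    have e : ∑ a, p a * ∑ v ∈ Nv, g v a = ∑ v ∈ Nv, ∑ a, p a * g v a := by
      rw [sum_comm]
      exact sum_congr rfl (fun a _ => by rw [mul_sum])
    rw [e]
    calc ∑ v ∈ Nv, ∑ a, p a * g v a ≤ ∑ v ∈ Nv, (ω - 1) * ρ₀ * Pt := sum_le_sum hsum1
      _ = ((Nv.card : ℝ) * ((ω - 1) * ρ₀)) * Pt := by rw [sum_const, nsmul_eq_mul]; ring
      _ ≤ η * Pt := mul_le_mul_of_nonneg_right hη hpos.le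
  obtain ⟨a, hpa, ha⟩ : ∃ a, 0 < p a ∧ ∑ v ∈ Nv, g v a ≤ η := by
    by_contra hcon
    push Not at hcon
    have h1 : ∀ a, p a * η ≤ p a * ∑ v ∈ Nv, g v a := by
      intro a
      rcases (hp a).eq_or_lt with h | h
      · rw [← h]; simp
      · exact mul_le_mul_of_nonneg_left (hcon a h).le (hp a)
    obtain ⟨a0, ha0⟩ : ∃ a, 0 < p a := by
      by_contra hc
      push Not at hc
      have : Pt ≤ 0 := sum_nonpos (fun a _ => hc a)
      linarith
    have h2 : ∑ a, p a * η < ∑ a, p a * ∑ v ∈ Nv, g v a := by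
      refine sum_lt_sum (fun a _ => h1 a) ⟨a0, mem_univ _, ?_⟩
      exact mul_lt_mul_of_pos_left (hcon a0 ha0) ha0
    rw [← sum_mul] at h2
    linarith
  refine ⟨a, hpa, fun v hv => ?_⟩
  have hB := hBd v hv
  have h1 : g v a ≤ η := by
    refine le_trans ?_ ha
    exact single_le_sum (f := fun v => g v a) (fun v hv => hgn v hv a) hv
  rw [hg] at h1
  simp only at h1
  rw [div_le_iff₀ hB] at h1
  have h2 : ∑ r ∈ R, ω ^ (w v r + if bad v r a then 1 else 0) =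
      ∑ r ∈ R, ω ^ (w v r) + ∑ r ∈ R, ω ^ (w v r) * (if bad v r a then (ω - 1) else 0) := by
    rw [← sum_add_distrib]
    refine sum_congr rfl (fun r _ => ?_)
    by_cases h : bad v r a
    · rw [if_pos h, if_pos h, pow_succ]; ring
    · rw [if_neg h, if_neg h]; simp
  rw [h2]
  have := hold v hv
  nlinarith

end Pool.Agent.Helper34.AD
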