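import Pool.Agent.Helper34.AD.Rot

set_option autoImplicit false

namespace Pool.Agent.Helper34.AD

open Finset

variable {m : ℕ}

theorem lin_le {ι : Type*} (s : Finset ι) (α g : ι → ℝ) (a : ℝ) (h0 : ∀ i ∈ s, 0 ≤ α i)
    (h1 : ∀ i ∈ s, α i ≤ a) :
    ∑ i ∈ s, α i * g i ≤ a * ∑ i ∈ s.filter (fun i => 0 ≤ g i), g i := by
  rw [mul_sum, sum_filter]
  refine sum_le_sum (fun i hi => ?_)
  split_ifs with h
  · exact mul_le_mul_of_nonneg_right (h1 i hi) h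
  · push Not at h
    exact mul_nonpos_of_nonneg_of_nonpos (h0 i hi) h.le

theorem bilin_one (D : Fin m → Fin m → ℝ) (K : ℝ)
    (hD : ∀ A B : Finset (Fin m), ∑ i ∈ A, ∑ c ∈ B, D i c ≤ K)
    (α β : Fin m → ℝ) (a b : ℝ) (ha : 0 ≤ a) (hb : 0 ≤ b) (hα0 : ∀ i, 0 ≤ α i) (hα : ∀ i, α i ≤ a)
    (hβ0 : ∀ i, 0 ≤ β i) (hβ : ∀ i, β i ≤ b) :
    ∑ i, ∑ c, α i * β c * D i c ≤ a * b * K := by
  set g : Fin m → ℝ := fun i => ∑ c, β c * D i c with hg
  have e1 : ∑ i, ∑ c, α i * β c * D i c = ∑ i, α i * g i := by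
    refine sum_congr rfl (fun i _ => ?_)
    rw [hg, mul_sum]
    exact sum_congr rfl (fun c _ => by ring)
  rw [e1]
  set A := (univ : Finset (Fin m)).filter (fun i => 0 ≤ g i) with hA
  have e2 : ∑ i, α i * g i ≤ a * ∑ i ∈ A, g i :=
    lin_le univ α g a (fun i _ => hα0 i) (fun i _ => hα i)
  have e3 : ∑ i ∈ A, g i = ∑ c, β c * (∑ i ∈ A, D i c) := by
    rw [hg]
    simp only
    rw [sum_comm]
    exact sum_congr rfl (fun c _ => by rw [mul_sum])
  have e4 : ∑ c, β c * (∑ i ∈ A, D i c) ≤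
      b * ∑ c ∈ univ.filter (fun c => 0 ≤ ∑ i ∈ A, D i c), ∑ i ∈ A, D i c :=
    lin_le univ β (fun c => ∑ i ∈ A, D i c) b (fun i _ => hβ0 i) (fun i _ => hβ i)
  have e5 : ∑ c ∈ univ.filter (fun c => 0 ≤ ∑ i ∈ A, D i c), ∑ i ∈ A, D i c ≤ K := by
    rw [sum_comm]; exact hD _ _
  calc ∑ i, α i * g i ≤ a * ∑ i ∈ A, g i := e2
    _ ≤ a * (b * K) := by
        refine mul_le_mul_of_nonneg_left ?_ ha
        rw [e3]
        exact e4.trans (mul_le_mul_of_nonneg_left e5 hb)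
    _ = a * b * K := by ring

theorem bilin (D : Fin m → Fin m → ℝ) (K : ℝ)
    (hD : ∀ A B : Finset (Fin m), |∑ i ∈ A, ∑ c ∈ B, D i c| ≤ K)
    (α β : Fin m → ℝ) (a b : ℝ) (ha : 0 ≤ a) (hb : 0 ≤ b) (hα0 : ∀ i, 0 ≤ α i) (hα : ∀ i, α i ≤ a)
    (hβ0 : ∀ i, 0 ≤ β i) (hβ : ∀ i, β i ≤ b) :
    |∑ i, ∑ c, α i * β c * D i c| ≤ a * b * K := by
  rw [abs_le]
  constructor
  · have h := bilin_one (fun i c => - D i c) K (fun A B => by
      have := (abs_le.1 (hD A B)).1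
      simp only [sum_neg_distrib]
      linarith) α β a b ha hb hα0 hα hβ0 hβ
    have h2 : ∑ i, ∑ c, α i * β c * (fun i c => - D i c) i c = - ∑ i, ∑ c, α i * β c * D i c := by
      rw [← sum_neg_distrib]
      refine sum_congr rfl (fun i _ => ?_)
      rw [← sum_neg_distrib]
      exact sum_congr rfl (fun c _ => by ring)
    rw [h2] at h
    linarith
  · exact bilin_one D K (fun A B => (abs_le.1 (hD A B)).2) α β a b ha hb hα0 hα hβ0 hβ

theorem l1_le (y : Fin m → ℝ) (K : ℝ) (h : ∀ A : Finset (Fin m), |∑ i ∈ A, y i| ≤ K) :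
    ∑ i, |y i| ≤ 2 * K := by
  have h1 := sum_filter_add_sum_filter_not (univ : Finset (Fin m)) (fun i => 0 ≤ y i)
    (fun i => |y i|)
  rw [← h1]
  have h2 : ∑ i ∈ univ.filter (fun i => 0 ≤ y i), |y i| = ∑ i ∈ univ.filter (fun i => 0 ≤ y i), y i := by
    refine sum_congr rfl (fun i hi => ?_)
    rw [mem_filter] at hi
    exact abs_of_nonneg hi.2
  have h3 : ∑ i ∈ univ.filter (fun i => ¬ 0 ≤ y i), |y i| =
      - ∑ i ∈ univ.filter (fun i => ¬ 0 ≤ y i), y i := by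
    rw [← sum_neg_distrib]
    refine sum_congr rfl (fun i hi => ?_)
    rw [mem_filter] at hi
    exact abs_of_neg (not_le.1 hi.2)
  rw [h2, h3]
  have h4 := (abs_le.1 (h (univ.filter (fun i => 0 ≤ y i)))).2
  have h5 := (abs_le.1 (h (univ.filter (fun i => ¬ 0 ≤ y i)))).1
  linarith

/-- Cut-closeness of the weights `W` to the uniform weights. -/
def Cut (W : Fin m → Fin m → ℝ) (ζ : ℝ) : Prop :=
  ∀ A B : Finset (Fin m), |∑ i ∈ A, ∑ c ∈ B, (W i c - 1 / (m : ℝ))| ≤ ζ * m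

/-- Basic data. -/
structure Good (W : Fin m → Fin m → ℝ) (C ζ : ℝ) : Prop where
  mpos : 0 < m
  C1 : 1 ≤ C
  ζ0 : 0 ≤ ζ
  nn : ∀ i c, 0 ≤ W i c
  ub : ∀ i c, W i c ≤ C / m
  cut : Cut W ζ

section basic

variable {W : Fin m → Fin m → ℝ} {C ζ : ℝ} (g : Good W C ζ)

include g

theorem Good.m0 : (0 : ℝ) < m := by exact_mod_cast g.mpos

theorem Good.row_l1 : ∑ i, |(∑ c, W i c) - 1| ≤ 2 * (ζ * m) := by
  have hm := g.m0
  refine l1_le _ _ (fun A => ?_)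
  have h := g.cut A univ
  have h2 : ∑ i ∈ A, ∑ c, (W i c - 1 / (m : ℝ)) = ∑ i ∈ A, ((∑ c, W i c) - 1) := by
    refine sum_congr rfl (fun i _ => ?_)
    rw [sum_sub_distrib, sum_const, card_univ, Fintype.card_fin, nsmul_eq_mul]
    congr 1
    field_simp
  rw [h2] at h
  exact h

theorem Good.col_l1 : ∑ c, |(∑ i, W i c) - 1| ≤ 2 * (ζ * m) := by
  have hm := g.m0
  refine l1_le _ _ (fun B => ?_)
  have h := g.cut univ B
  have h2 : ∑ i, ∑ c ∈ B, (W i c - 1 / (m : ℝ)) = ∑ c ∈ B, ((∑ i, W i c) - 1) := by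
    rw [sum_comm]
    refine sum_congr rfl (fun i _ => ?_)
    rw [sum_sub_distrib, sum_const, card_univ, Fintype.card_fin, nsmul_eq_mul]
    congr 1
    field_simp
  rw [h2] at h
  exact h

theorem Good.row_nn (i : Fin m) : 0 ≤ ∑ c, W i c := sum_nonneg (fun c _ => g.nn i c)

theorem Good.col_nn (c : Fin m) : 0 ≤ ∑ i, W i c := sum_nonneg (fun i _ => g.nn i c)

theorem Good.row_ub (i : Fin m) : ∑ c, W i c ≤ C := by
  have hm := g.m0
  calc ∑ c, W i c ≤ ∑ c : Fin m, C / m := sum_le_sum (fun c _ => g.ub i c)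
    _ = C := by
        rw [sum_const, card_univ, Fintype.card_fin, nsmul_eq_mul]
        field_simp

theorem Good.col_ub (c : Fin m) : ∑ i, W i c ≤ C := by
  have hm := g.m0
  calc ∑ i, W i c ≤ ∑ i : Fin m, C / m := sum_le_sum (fun i _ => g.ub i c)
    _ = C := by
        rw [sum_const, card_univ, Fintype.card_fin, nsmul_eq_mul]
        field_simp

theorem Good.total_le : ∑ i, ∑ c, W i c ≤ m + ζ * m := by
  have hm := g.m0
  have h := (abs_le.1 (g.cut univ univ)).2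
  have h2 : ∑ i, ∑ c, (W i c - 1 / (m : ℝ)) = ∑ i, ∑ c, W i c - m := by
    simp only [sum_sub_distrib, sum_const, card_univ, Fintype.card_fin, nsmul_eq_mul]
    congr 1
    field_simp
  rw [h2] at h
  linarith

end basic

/-- two free intermediate points -/
def VV (W : Fin m → Fin m → ℝ) (f : Equiv.Perm (Fin m)) (i1 i0 : Fin m) : ℝ :=
  ∑ i2, ∑ i3, W i1 (f i2) * W i2 (f i3) * W i3 (f i0)

theorem VV_bound {W : Fin m → Fin m → ℝ} {C ζ : ℝ} (g : Good W C ζ) (f : Equiv.Perm (Fin m))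
    (i1 i0 : Fin m) :
    |VV W f i1 i0 - (∑ c, W i1 c) * (∑ i, W i (f i0)) / m| ≤ C ^ 2 * ζ / m := by
  have hm := g.m0
  have hC : 0 ≤ C / m := div_nonneg (by linarith [g.C1]) hm.le
  have h := bilin (fun i c => W i c - 1 / (m : ℝ)) (ζ * m) g.cut (fun i2 => W i1 (f i2))
    (fun c => W (f.symm c) (f i0)) (C / m) (C / m) hC hC (fun i => g.nn _ _) (fun i => g.ub _ _)
    (fun i => g.nn _ _) (fun i => g.ub _ _)
  have e1 : ∑ i, ∑ c, (fun i2 => W i1 (f i2)) i * (fun c => W (f.symm c) (f i0)) c *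
      ((fun i c => W i c - 1 / (m : ℝ)) i c) =
      VV W f i1 i0 - (∑ c, W i1 c) * (∑ i, W i (f i0)) / m := by
    have h1 : VV W f i1 i0 = ∑ i2, ∑ c, W i1 (f i2) * W (f.symm c) (f i0) * W i2 c := by
      unfold VV
      refine sum_congr rfl (fun i2 _ => ?_)
      rw [← Equiv.sum_comp f (fun c => W i1 (f i2) * W (f.symm c) (f i0) * W i2 c)]
      refine sum_congr rfl (fun i3 _ => ?_)
      rw [Equiv.symm_apply_apply]
      ring
    have h2 : (∑ c, W i1 c) * (∑ i, W i (f i0)) / m =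
        ∑ i2, ∑ c, W i1 (f i2) * W (f.symm c) (f i0) * (1 / (m : ℝ)) := by
      rw [← Equiv.sum_comp f (fun c => W i1 c), ← Equiv.sum_comp f.symm (fun i => W i (f i0)),
        sum_mul_sum, sum_div]
      refine sum_congr rfl (fun i2 _ => ?_)
      rw [sum_div]
      refine sum_congr rfl (fun c _ => ?_)
      ring
    rw [h1, h2, ← sum_sub_distrib]
    refine sum_congr rfl (fun i2 _ => ?_)
    rw [← sum_sub_distrib]
    refine sum_congr rfl (fun c _ => ?_)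
    ring
  rw [e1] at h
  refine h.trans (le_of_eq ?_)
  field_simp

theorem not_D4_count (i0 : Fin m) :
    ∑ i1, ∑ i2, ∑ i3, (if D4 i0 i1 i2 i3 then (0 : ℝ) else 1) ≤ 6 * (m : ℝ) ^ 2 := by
  have hle : ∀ i1 i2 i3, (if D4 i0 i1 i2 i3 then (0 : ℝ) else 1) ≤
      (if i1 = i0 then (1 : ℝ) else 0) + (if i2 = i0 then 1 else 0) + (if i3 = i0 then 1 else 0) +
      (if i2 = i1 then 1 else 0) + (if i3 = i1 then 1 else 0) + (if i3 = i2 then 1 else 0) := by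
    intro i1 i2 i3
    have p : ∀ (P : Prop) [Decidable P], (0 : ℝ) ≤ if P then (1 : ℝ) else 0 := by
      intro P _; split_ifs <;> norm_num
    by_cases h : D4 i0 i1 i2 i3
    · rw [if_pos h]
      have := p (i1 = i0); have := p (i2 = i0); have := p (i3 = i0)
      have := p (i2 = i1); have := p (i3 = i1); have := p (i3 = i2)
      linarith
    · rw [if_neg h]
      unfold D4 at h
      have := p (i1 = i0); have := p (i2 = i0); have := p (i3 = i0)
      have := p (i2 = i1); have := p (i3 = i1); have := p (i3 = i2)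
      by_cases c1 : i1 = i0
      · rw [if_pos c1]; linarith
      by_cases c2 : i2 = i0
      · rw [if_pos c2]; linarith
      by_cases c3 : i3 = i0
      · rw [if_pos c3]; linarith
      by_cases c4 : i2 = i1
      · rw [if_pos c4]; linarith
      by_cases c5 : i3 = i1
      · rw [if_pos c5]; linarith
      by_cases c6 : i3 = i2
      · rw [if_pos c6]; linarith
      exact absurd ⟨c1, c2, c3, c4, c5, c6⟩ h
  calc ∑ i1, ∑ i2, ∑ i3, (if D4 i0 i1 i2 i3 then (0 : ℝ) else 1)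
      ≤ ∑ i1, ∑ i2, ∑ i3, ((if i1 = i0 then (1 : ℝ) else 0) + (if i2 = i0 then 1 else 0) +
        (if i3 = i0 then 1 else 0) + (if i2 = i1 then 1 else 0) + (if i3 = i1 then 1 else 0) +
        (if i3 = i2 then 1 else 0)) :=
        sum_le_sum (fun i1 _ => sum_le_sum (fun i2 _ => sum_le_sum (fun i3 _ => hle i1 i2 i3)))
    _ = 6 * (m : ℝ) ^ 2 := by
        simp only [sum_add_distrib, sum_ite_eq', mem_univ, if_true, sum_const, card_univ,
          Fintype.card_fin, nsmul_eq_mul, mul_one, mul_ite, mul_zero]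
        ring

/-- the return sum -/
def SS (W : Fin m → Fin m → ℝ) (f : Equiv.Perm (Fin m)) (i0 : Fin m) : ℝ :=
  ∑ i1, ∑ i2, ∑ i3, (if D4 i0 i1 i2 i3 then T W f i0 i1 i2 i3 else 0)

/-- the return sum weighted by `h` -/
def RR (W h : Fin m → Fin m → ℝ) (f : Equiv.Perm (Fin m)) (i0 : Fin m) : ℝ :=
  ∑ i1, ∑ i2, ∑ i3, (if D4 i0 i1 i2 i3 then T W f i0 i1 i2 i3 * h i0 (f i1) else 0)

theorem T_nn {W : Fin m → Fin m → ℝ} (hW : ∀ i c, 0 ≤ W i c) (f : Equiv.Perm (Fin m))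
    (i0 i1 i2 i3 : Fin m) : 0 ≤ T W f i0 i1 i2 i3 := by
  unfold T
  exact mul_nonneg (mul_nonneg (mul_nonneg (hW _ _) (hW _ _)) (hW _ _)) (hW _ _)

theorem T_ub {W : Fin m → Fin m → ℝ} {C ζ : ℝ} (g : Good W C ζ) (f : Equiv.Perm (Fin m))
    (i0 i1 i2 i3 : Fin m) : T W f i0 i1 i2 i3 ≤ (C / m) ^ 4 := by
  have hm := g.m0
  have hC : 0 ≤ C / m := div_nonneg (by linarith [g.C1]) hm.le
  unfold T
  calc W i0 (f i1) * W i1 (f i2) * W i2 (f i3) * W i3 (f i0)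
      ≤ (C / m) * (C / m) * (C / m) * (C / m) := by
        refine mul_le_mul (mul_le_mul (mul_le_mul (g.ub _ _) (g.ub _ _) (g.nn _ _) hC)
          (g.ub _ _) (g.nn _ _) (by positivity)) (g.ub _ _) (g.nn _ _) (by positivity)
    _ = (C / m) ^ 4 := by ring

theorem SS_full (W : Fin m → Fin m → ℝ) (f : Equiv.Perm (Fin m)) (i0 : Fin m) :
    ∑ i1, ∑ i2, ∑ i3, T W f i0 i1 i2 i3 = ∑ i1, W i0 (f i1) * VV W f i1 i0 := by
  refine sum_congr rfl (fun i1 _ => ?_)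
  unfold VV
  rw [mul_sum]
  refine sum_congr rfl (fun i2 _ => ?_)
  rw [mul_sum]
  refine sum_congr rfl (fun i3 _ => ?_)
  unfold T
  ring

theorem SS_lower {W : Fin m → Fin m → ℝ} {C ζ : ℝ} (g : Good W C ζ) (f : Equiv.Perm (Fin m))
    (i0 : Fin m) :
    ∑ i1, W i0 (f i1) * VV W f i1 i0 - 6 * C ^ 4 / m ^ 2 ≤ SS W f i0 := by
  have hm := g.m0
  rw [← SS_full]
  have h1 : ∑ i1, ∑ i2, ∑ i3, T W f i0 i1 i2 i3 - SS W f i0 ≤
      ∑ i1, ∑ i2, ∑ i3, (C / m) ^ 4 * (if D4 i0 i1 i2 i3 then (0 : ℝ) else 1) := by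
    unfold SS
    rw [← sum_sub_distrib]
    refine sum_le_sum (fun i1 _ => ?_)
    rw [← sum_sub_distrib]
    refine sum_le_sum (fun i2 _ => ?_)
    rw [← sum_sub_distrib]
    refine sum_le_sum (fun i3 _ => ?_)
    split_ifs with h
    · simp
    · rw [sub_zero, mul_one]; exact T_ub g f i0 i1 i2 i3
  have h2 : ∑ i1, ∑ i2, ∑ i3, (C / m) ^ 4 * (if D4 i0 i1 i2 i3 then (0 : ℝ) else 1) =
      (C / m) ^ 4 * ∑ i1, ∑ i2, ∑ i3, (if D4 i0 i1 i2 i3 then (0 : ℝ) else 1) := by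
    simp only [mul_sum]
  rw [h2] at h1
  have h3 : (C / m) ^ 4 * ∑ i1, ∑ i2, ∑ i3, (if D4 i0 i1 i2 i3 then (0 : ℝ) else 1) ≤
      (C / m) ^ 4 * (6 * (m : ℝ) ^ 2) :=
    mul_le_mul_of_nonneg_left (not_D4_count i0) (by positivity)
  have h4 : (C / m) ^ 4 * (6 * (m : ℝ) ^ 2) = 6 * C ^ 4 / m ^ 2 := by
    field_simp
  linarith

theorem RR_upper {W h : Fin m → Fin m → ℝ} {C ζ : ℝ} (g : Good W C ζ) (hh : ∀ i c, 0 ≤ h i c)
    (f : Equiv.Perm (Fin m)) (i0 : Fin m) :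
    RR W h f i0 ≤ ∑ i1, h i0 (f i1) * W i0 (f i1) * VV W f i1 i0 := by
  have h1 : RR W h f i0 ≤ ∑ i1, ∑ i2, ∑ i3, T W f i0 i1 i2 i3 * h i0 (f i1) := by
    unfold RR
    refine sum_le_sum (fun i1 _ => sum_le_sum (fun i2 _ => sum_le_sum (fun i3 _ => ?_)))
    split_ifs with h
    · exact le_rfl
    · exact mul_nonneg (T_nn g.nn _ _ _ _ _) (hh _ _)
  refine h1.trans (le_of_eq ?_)
  refine sum_congr rfl (fun i1 _ => ?_)
  unfold VV
  rw [mul_sum]
  refine sum_congr rfl (fun i2 _ => ?_)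
  rw [mul_sum]
  refine sum_congr rfl (fun i3 _ => ?_)
  unfold T
  ring

end Pool.Agent.Helper34.AD
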