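import Pool.Agent.Helper34.AD.Bil

set_option autoImplicit false

namespace Pool.Agent.Helper34.AD

open Finset

variable {m : ℕ} {W h : Fin m → Fin m → ℝ} {C ζ H : ℝ}

theorem rs_bound (g : Good W C ζ) (i c : Fin m) :
    |(∑ c', W i c') * (∑ i', W i' c) - 1| ≤
      C * |(∑ c', W i c') - 1| + |(∑ i', W i' c) - 1| := by
  have hs0 := g.col_nn c
  have hsC := g.col_ub c
  have e : (∑ c', W i c') * (∑ i', W i' c) - 1 =
      (∑ i', W i' c) * ((∑ c', W i c') - 1) + ((∑ i', W i' c) - 1) := by ring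
  rw [e]
  refine (abs_add_le _ _).trans ?_
  rw [abs_mul, abs_of_nonneg hs0]
  have := mul_le_mul_of_nonneg_right hsC (abs_nonneg ((∑ c', W i c') - 1))
  linarith

theorem hbar_le (g : Good W C ζ) (hh0 : ∀ i c, 0 ≤ h i c) (hhH : ∀ i c, h i c ≤ H) (hH : 0 ≤ H) :
    ∑ i, ∑ c, W i c * h i c ≤ H * C * m := by
  have hm := g.m0
  calc ∑ i, ∑ c, W i c * h i c ≤ ∑ i : Fin m, ∑ c : Fin m, (C / m) * H :=
        sum_le_sum (fun i _ => sum_le_sum (fun c _ =>
          mul_le_mul (g.ub i c) (hhH i c) (hh0 i c) (by have := g.C1; positivity)))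
    _ = H * C * m := by
        simp only [sum_const, card_univ, Fintype.card_fin, nsmul_eq_mul]
        field_simp

theorem stepB (g : Good W C ζ) (hh0 : ∀ i c, 0 ≤ h i c) (hhH : ∀ i c, h i c ≤ H) (hH : 0 ≤ H)
    (f : Equiv.Perm (Fin m)) :
    ∑ i, RR W h f i ≤ (∑ i, ∑ c, W i c * h i c) / m + 5 * H * C ^ 3 * ζ := by
  have hm := g.m0
  have hC1 := g.C1
  have hC0 : 0 ≤ C := by linarith
  have hζ := g.ζ0
  set r : Fin m → ℝ := fun i => ∑ c, W i c with hr
  set s : Fin m → ℝ := fun c => ∑ i, W i c with hs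
  set a : Fin m → Fin m → ℝ := fun i i1 => h i (f i1) * W i (f i1) with ha
  have ha0 : ∀ i i1, 0 ≤ a i i1 := fun i i1 => mul_nonneg (hh0 _ _) (g.nn _ _)
  have haU : ∀ i i1, a i i1 ≤ H * (C / m) := fun i i1 =>
    mul_le_mul (hhH _ _) (g.ub _ _) (g.nn _ _) hH
  have hsum : ∑ i, ∑ i1, a i i1 = ∑ i, ∑ c, W i c * h i c := by
    refine sum_congr rfl (fun i _ => ?_)
    rw [← Equiv.sum_comp f (fun c => W i c * h i c)]
    exact sum_congr rfl (fun i1 _ => by rw [ha]; ring)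
  have h1 : ∑ i, RR W h f i ≤ ∑ i, ∑ i1, a i i1 * (r i1 * s (f i) / m + C ^ 2 * ζ / m) := by
    refine sum_le_sum (fun i _ => (RR_upper g hh0 f i).trans ?_)
    refine sum_le_sum (fun i1 _ => ?_)
    refine mul_le_mul_of_nonneg_left ?_ (ha0 i i1)
    have := (abs_le.1 (VV_bound g f i1 i)).2
    simp only [hr, hs]
    linarith
  have h2 : ∀ i i1, a i i1 * (r i1 * s (f i) / m + C ^ 2 * ζ / m) ≤
      a i i1 * (1 / m + C ^ 2 * ζ / m) +
        (H * (C / m)) * ((C * |r i1 - 1| + |s (f i) - 1|) / m) := by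
    intro i i1
    have e : a i i1 * (r i1 * s (f i) / m + C ^ 2 * ζ / m) =
      a i i1 * (1 / m + C ^ 2 * ζ / m) + a i i1 * ((r i1 * s (f i) - 1) / m) := by ring
    rw [e]
    have h3 : (r i1 * s (f i) - 1) / m ≤ (C * |r i1 - 1| + |s (f i) - 1|) / m :=
      div_le_div_of_nonneg_right ((le_abs_self _).trans (rs_bound g i1 (f i))) hm.le
    have h4 : a i i1 * ((r i1 * s (f i) - 1) / m) ≤
        (H * (C / m)) * ((C * |r i1 - 1| + |s (f i) - 1|) / m) :=
      (mul_le_mul_of_nonneg_left h3 (ha0 i i1)).trans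
        (mul_le_mul_of_nonneg_right (haU i i1) (by positivity))
    linarith
  have h5 : ∑ i, ∑ i1, a i i1 * (r i1 * s (f i) / m + C ^ 2 * ζ / m) ≤
      (∑ i, ∑ c, W i c * h i c) * (1 / m + C ^ 2 * ζ / m) +
      (H * (C / m)) * ((C * (m * ∑ i, |r i - 1|) + m * ∑ c, |s c - 1|) / m) := by
    calc ∑ i, ∑ i1, a i i1 * (r i1 * s (f i) / m + C ^ 2 * ζ / m)
        ≤ ∑ i, ∑ i1, (a i i1 * (1 / m + C ^ 2 * ζ / m) +
        (H * (C / m)) * ((C * |r i1 - 1| + |s (f i) - 1|) / m)) :=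
          sum_le_sum (fun i _ => sum_le_sum (fun i1 _ => h2 i i1))
      _ = (∑ i, ∑ i1, a i i1) * (1 / m + C ^ 2 * ζ / m) +
          (H * (C / m)) * (∑ i, ∑ i1, (C * |r i1 - 1| + |s (f i) - 1|) / m) := by
          simp only [sum_add_distrib, ← sum_mul, ← mul_sum]
      _ = _ := by
          rw [hsum]
          congr 2
          simp only [← sum_div]
          congr 1
          simp only [sum_add_distrib, ← mul_sum, sum_const, card_univ, Fintype.card_fin,
            nsmul_eq_mul]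
          rw [Equiv.sum_comp f (fun c => |s c - 1|)]
  have h6 := g.row_l1
  have h7 := g.col_l1
  have h8 := hbar_le g hh0 hhH hH
  have h9 : (∑ i, ∑ c, W i c * h i c) * (1 / m + C ^ 2 * ζ / m) ≤
      (∑ i, ∑ c, W i c * h i c) / m + H * C ^ 3 * ζ := by
    have : (∑ i, ∑ c, W i c * h i c) * (C ^ 2 * ζ / m) ≤ (H * C * m) * (C ^ 2 * ζ / m) :=
      mul_le_mul_of_nonneg_right h8 (by positivity)
    have e : (H * C * m) * (C ^ 2 * ζ / m) = H * C ^ 3 * ζ := by field_simp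
    rw [e] at this
    rw [mul_add]
    have e2 : (∑ i, ∑ c, W i c * h i c) * (1 / m) = (∑ i, ∑ c, W i c * h i c) / m := by ring
    rw [e2]
    linarith
  have h10 : (H * (C / m)) * ((C * (m * ∑ i, |r i - 1|) + m * ∑ c, |s c - 1|) / m) ≤
      4 * (H * C ^ 3 * ζ) := by
    have b1 : (C * (m * ∑ i, |r i - 1|) + m * ∑ c, |s c - 1|) / m ≤
        C * (2 * (ζ * m)) + 2 * (ζ * m) := by
      rw [div_le_iff₀ hm]
      have := mul_le_mul_of_nonneg_left h6 (by positivity : (0:ℝ) ≤ C * m)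
      have := mul_le_mul_of_nonneg_left h7 hm.le
      simp only [hr, hs]
      nlinarith
    calc (H * (C / m)) * ((C * (m * ∑ i, |r i - 1|) + m * ∑ c, |s c - 1|) / m)
        ≤ (H * (C / m)) * (C * (2 * (ζ * m)) + 2 * (ζ * m)) :=
          mul_le_mul_of_nonneg_left b1 (by positivity)
      _ = 2 * (H * ζ) * (C * (C + 1)) := by field_simp
      _ ≤ 2 * (H * ζ) * (C * (C * (2 * C))) := by
          refine mul_le_mul_of_nonneg_left ?_ (by positivity)
          refine mul_le_mul_of_nonneg_left ?_ hC0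
          nlinarith
      _ = 4 * (H * C ^ 3 * ζ) := by ring
  linarith

theorem stepC (g : Good W C ζ) (hh0 : ∀ i c, 0 ≤ h i c) (hhH : ∀ i c, h i c ≤ H) (hH : 0 ≤ H)
    (f : Equiv.Perm (Fin m)) :
    ∑ i, h i (f i) * (1 / m - SS W f i) ≤ 7 * H * C ^ 3 * ζ + 6 * H * C ^ 4 / m := by
  have hm := g.m0
  have hC1 := g.C1
  have hC0 : 0 ≤ C := by linarith
  have hζ := g.ζ0
  set r : Fin m → ℝ := fun i => ∑ c, W i c with hr
  set s : Fin m → ℝ := fun c => ∑ i, W i c with hs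
  have hs0 : ∀ c, 0 ≤ s c := fun c => g.col_nn c
  have hsC : ∀ c, s c ≤ C := fun c => g.col_ub c
  have hr0 : ∀ c, 0 ≤ r c := fun c => g.row_nn c
  have hrC : ∀ c, r c ≤ C := fun c => g.row_ub c
  set β : Fin m → ℝ := fun i => (C * |r i - 1| + |s (f i) - 1| + 2 * C ^ 2 * ζ) / m +
    C ^ 3 * ζ / m + 6 * C ^ 4 / m ^ 2 with hβ
  have h6 := g.row_l1
  have h7 := g.col_l1
  have key : ∀ i, 1 / m - SS W f i ≤ β i := by
    intro i
    have h1 := SS_lower g f i
    have h2 : s (f i) / m * (∑ i1, W i (f i1) * r i1) - C ^ 3 * ζ / m ≤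
        ∑ i1, W i (f i1) * VV W f i1 i := by
      have : ∀ i1, W i (f i1) * (r i1 * s (f i) / m - C ^ 2 * ζ / m) ≤
          W i (f i1) * VV W f i1 i := by
        intro i1
        refine mul_le_mul_of_nonneg_left ?_ (g.nn _ _)
        have := (abs_le.1 (VV_bound g f i1 i)).1
        simp only [hr, hs]
        linarith
      have h3 := sum_le_sum (fun i1 (_ : i1 ∈ (univ : Finset (Fin m))) => this i1)
      refine le_trans ?_ h3
      have e : ∑ i1, W i (f i1) * (r i1 * s (f i) / m - C ^ 2 * ζ / m) =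
          s (f i) / m * (∑ i1, W i (f i1) * r i1) - (∑ i1, W i (f i1)) * (C ^ 2 * ζ / m) := by
        rw [mul_sum, sum_mul, ← sum_sub_distrib]
        exact sum_congr rfl (fun i1 _ => by ring)
      rw [e, Equiv.sum_comp f (fun c => W i c)]
      have : r i * (C ^ 2 * ζ / m) ≤ C * (C ^ 2 * ζ / m) :=
        mul_le_mul_of_nonneg_right (hrC i) (by positivity)
      have e2 : C * (C ^ 2 * ζ / m) = C ^ 3 * ζ / m := by ring
      rw [e2] at this
      simp only [hr] at this ⊢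
      linarith
    have h4 : r i - 2 * C * ζ ≤ ∑ i1, W i (f i1) * r i1 := by
      have e : ∑ i1, W i (f i1) * r i1 = r i + ∑ i1, W i (f i1) * (r i1 - 1) := by
        have e1 : ∑ i1, W i (f i1) * (r i1 - 1) = ∑ i1, W i (f i1) * r i1 - ∑ i1, W i (f i1) := by
          rw [← sum_sub_distrib]
          exact sum_congr rfl (fun i1 _ => by ring)
        rw [e1, Equiv.sum_comp f (fun c => W i c)]
        simp only [hr]
        ring
      rw [e]
      have : ∀ i1, - ((C / m) * |r i1 - 1|) ≤ W i (f i1) * (r i1 - 1) := by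
        intro i1
        have a1 : |W i (f i1) * (r i1 - 1)| ≤ (C / m) * |r i1 - 1| := by
          rw [abs_mul, abs_of_nonneg (g.nn _ _)]
          exact mul_le_mul_of_nonneg_right (g.ub _ _) (abs_nonneg _)
        linarith [(abs_le.1 a1).1]
      have h3 := sum_le_sum (fun i1 (_ : i1 ∈ (univ : Finset (Fin m))) => this i1)
      rw [sum_neg_distrib, ← mul_sum] at h3
      have h5 : (C / m) * ∑ i1, |r i1 - 1| ≤ (C / m) * (2 * (ζ * m)) :=
        mul_le_mul_of_nonneg_left h6 (by positivity)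
      have e2 : (C / m) * (2 * (ζ * m)) = 2 * C * ζ := by field_simp
      rw [e2] at h5
      linarith
    have h8 := (abs_le.1 (rs_bound g i (f i))).1
    have h9 : 1 / m - s (f i) / m * (∑ i1, W i (f i1) * r i1) ≤
        (C * |r i - 1| + |s (f i) - 1| + 2 * C ^ 2 * ζ) / m := by
      have a1 : s (f i) / m * (r i - 2 * C * ζ) ≤ s (f i) / m * (∑ i1, W i (f i1) * r i1) :=
        mul_le_mul_of_nonneg_left h4 (div_nonneg (hs0 _) hm.le)
      have a2 : 1 / m - s (f i) / m * (r i - 2 * C * ζ) =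
          (1 - r i * s (f i) + s (f i) * (2 * C * ζ)) / m := by ring
      have a3 : (1 - r i * s (f i) + s (f i) * (2 * C * ζ)) / m ≤
          (C * |r i - 1| + |s (f i) - 1| + 2 * C ^ 2 * ζ) / m := by
        refine div_le_div_of_nonneg_right ?_ hm.le
        have a4 : s (f i) * (2 * C * ζ) ≤ C * (2 * C * ζ) :=
          mul_le_mul_of_nonneg_right (hsC _) (by positivity)
        simp only [hr, hs] at a4 ⊢
        nlinarith
      linarith
    simp only [hβ]
    linarith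
  have hβ0 : ∀ i, 0 ≤ β i := by
    intro i
    simp only [hβ]
    positivity
  have h10 : ∑ i, h i (f i) * (1 / m - SS W f i) ≤ ∑ i, H * β i := by
    refine sum_le_sum (fun i _ => ?_)
    calc h i (f i) * (1 / m - SS W f i) ≤ h i (f i) * β i :=
          mul_le_mul_of_nonneg_left (key i) (hh0 _ _)
      _ ≤ H * β i := mul_le_mul_of_nonneg_right (hhH _ _) (hβ0 i)
  have h11 : ∑ i, β i ≤ 7 * (C ^ 3 * ζ) + 6 * C ^ 4 / m := by
    have e : ∑ i, β i = (C * (∑ i, |r i - 1|) + (∑ c, |s c - 1|)) / m + 2 * C ^ 2 * ζ +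
        C ^ 3 * ζ + 6 * C ^ 4 / m := by
      simp only [hβ, sum_add_distrib, ← sum_div, ← mul_sum, sum_const, card_univ,
        Fintype.card_fin, nsmul_eq_mul]
      rw [Equiv.sum_comp f (fun c => |s c - 1|)]
      field_simp
    rw [e]
    have b1 : (C * (∑ i, |r i - 1|) + (∑ c, |s c - 1|)) / m ≤ C * (2 * ζ) + 2 * ζ := by
      rw [div_le_iff₀ hm]
      have := mul_le_mul_of_nonneg_left h6 hC0
      simp only [hr, hs]
      nlinarith
    have b2 : C * (2 * ζ) ≤ 2 * (C ^ 3 * ζ) := by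
      have : C ≤ C ^ 3 := by nlinarith [mul_nonneg hC0 (sub_nonneg.2 hC1), sq_nonneg C, mul_nonneg (mul_nonneg hC0 hC0) (sub_nonneg.2 hC1)]
      nlinarith
    have b3 : 2 * ζ ≤ 2 * (C ^ 3 * ζ) := by
      have : 1 ≤ C ^ 3 := one_le_pow₀ hC1
      nlinarith
    have b4 : 2 * C ^ 2 * ζ ≤ 2 * (C ^ 3 * ζ) := by
      have : C ^ 2 ≤ C ^ 3 := pow_le_pow_right₀ hC1 (by norm_num)
      nlinarith
    linarith
  rw [← mul_sum] at h10
  have h12 := mul_le_mul_of_nonneg_left h11 hH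
  have e : H * (7 * (C ^ 3 * ζ) + 6 * C ^ 4 / m) = 7 * H * C ^ 3 * ζ + 6 * H * C ^ 4 / m := by ring
  linarith

end Pool.Agent.Helper34.AD
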