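import Pool.Agent.Helper34.AD.StepP

set_option autoImplicit false

namespace Pool.Agent.Helper34.AD

open Finset Pool.Agent.Helper34.CP

variable {m : ℕ}

/-- Concentration for tables close to the constant table. -/
theorem conc_one (hm : 0 < m) (K0 : ℕ) (hK : K0 ≤ m) (C lam' ζmax : ℝ) (hC : 1 ≤ C)
    (hζmax : ζmax * (m : ℝ) ^ 2 < ((m : ℝ) - K0) ^ 2)
    (hl0 : 0 ≤ lam') (hl1 : lam' ≤ 2 * C * C) (hl2 : 12 * C ^ 5 ≤ lam' * m) :
    Conc (m := m) (fun _ _ => 1) K0 C (46 * C ^ 4) (2 * lam') (2 * C) ζmax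
      (2 * Real.exp (-(lam' ^ 2 * m / (64 * C ^ 3)))) := by
  classical
  intro M ζ hζ0 hζ1 hM0 hMC hM1 hrow hcol hcut
  have hm' : (0 : ℝ) < m := by exact_mod_cast hm
  have hC0 : 0 < C := by linarith
  set W : Fin m → Fin m → ℝ := fun i c => M i c / m with hW
  have g : Good W C ζ := by
    refine ⟨hm, hC, hζ0, fun i c => div_nonneg (hM0 i c) hm'.le,
      fun i c => div_le_div_of_nonneg_right (hMC i c) hm'.le, ?_⟩
    intro A B
    have h1 := hcut A B
    have e : ∑ i ∈ A, ∑ c ∈ B, (W i c - 1 / (m : ℝ)) =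
        (∑ i ∈ A, ∑ c ∈ B, (M i c - 1)) / m := by
      rw [sum_div]
      refine sum_congr rfl (fun i _ => ?_)
      rw [sum_div]
      exact sum_congr rfl (fun c _ => by rw [hW]; ring)
    rw [e, abs_div, abs_of_pos hm', div_le_iff₀ hm']
    calc |∑ i ∈ A, ∑ c ∈ B, (M i c - 1)| ≤ ζ * (m : ℝ) ^ 2 := h1
      _ = ζ * m * m := by ring
  constructor
  · -- positivity
    rcases exists_perm_or_blocked (fun i c => M i c ≠ 0) with ⟨ρ, hρ⟩ | ⟨A, B, hAB, hbl⟩
    · have h1 : 0 < wt W ρ := by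
        refine prod_pos (fun i _ => ?_)
        exact div_pos (lt_of_le_of_ne (hM0 _ _) (Ne.symm (hρ i))) hm'
      exact h1.trans_le (single_le_sum (f := fun f => wt W f) (fun f _ => wt_nn g.nn f)
        (mem_univ ρ))
    · exfalso
      have hAm : A.card ≤ m := by simpa using card_le_univ A
      have hBm : B.card ≤ m := by simpa using card_le_univ B
      have hA0 : A.Nonempty := by rw [← card_pos]; omega
      have hB0 : B.Nonempty := by rw [← card_pos]; omega
      obtain ⟨a, ha⟩ := hA0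
      obtain ⟨b, hb⟩ := hB0
      have h3 : B.card ≤ K0 := by
        refine le_trans (card_le_card ?_) (hrow a)
        intro c hc
        rw [mem_filter]
        exact ⟨mem_univ _, not_not.1 (hbl a ha c hc)⟩
      have h4 : A.card ≤ K0 := by
        refine le_trans (card_le_card ?_) (hcol b)
        intro c hc
        rw [mem_filter]
        exact ⟨mem_univ _, not_not.1 (hbl c hc b hb)⟩
      have h5 : (m : ℝ) - K0 ≤ A.card := by
        have : m ≤ A.card + K0 := by omega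
        have : (m : ℝ) ≤ (A.card : ℝ) + K0 := by exact_mod_cast this
        linarith
      have h6 : (m : ℝ) - K0 ≤ B.card := by
        have : m ≤ B.card + K0 := by omega
        have : (m : ℝ) ≤ (B.card : ℝ) + K0 := by exact_mod_cast this
        linarith
      have h7 : (0 : ℝ) ≤ (m : ℝ) - K0 := by
        have : (K0 : ℝ) ≤ m := by exact_mod_cast hK
        linarith
      have h8 : ∑ i ∈ A, ∑ c ∈ B, (M i c - 1) = - ((A.card : ℝ) * B.card) := by
        have : ∑ i ∈ A, ∑ c ∈ B, (M i c - 1) = ∑ i ∈ A, ∑ c ∈ B, (-1 : ℝ) := by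
          refine sum_congr rfl (fun i hi => sum_congr rfl (fun c hc => ?_))
          rw [not_not.1 (hbl i hi c hc)]
          ring
        rw [this]
        simp only [sum_const, nsmul_eq_mul]
        ring
      have h9 := hcut A B
      rw [h8, abs_neg, abs_of_nonneg (by positivity)] at h9
      have h10 : ((m : ℝ) - K0) ^ 2 ≤ (A.card : ℝ) * B.card := by
        rw [sq]
        exact mul_le_mul h5 h6 h7 (by positivity)
      have h11 : ζ * (m : ℝ) ^ 2 ≤ ζmax * (m : ℝ) ^ 2 :=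
        mul_le_mul_of_nonneg_right hζ1 (by positivity)
      linarith
  · intro h hh0 hhH
    have h1 := two_sided g hh0 hhH (by positivity) lam' hl0 (by linarith)
    refine le_trans (sum_le_sum_of_subset_of_nonneg ?_ (fun f _ _ => wt_nn g.nn f)) (h1.trans ?_)
    · intro f hf
      rw [mem_filter] at hf ⊢
      refine ⟨hf.1, le_trans ?_ hf.2⟩
      have e1 : (23 * (2 * C) * C ^ 3 * ζ + lam') * m + 6 * (2 * C) * C ^ 4 =
        (46 * C ^ 4 * ζ + lam') * m + 12 * C ^ 5 := by ring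
      rw [e1]
      linarith
    · refine le_of_eq ?_
      congr 4
      ring

theorem asym_degree (ε : ℝ) (hε : 0 < ε) :
    ∃ m₀ : ℕ, ∀ (Δ m : ℕ), m₀ ≤ m → (1 + ε) * (Δ : ℝ) ≤ (m : ℝ) →
      ∀ (V : Type) [Fintype V] [DecidableEq V] (G : SimpleGraph V) [DecidableRel G.Adj],
        (∀ v, G.degree v ≤ Δ) →
        ∀ σ : V → V → Equiv.Perm (Fin m),
          (∀ u v, G.Adj u v → σ v u = (σ u v).symm) →
          ∃ c : Fin m → V → Fin m,
            (∀ v, Function.Injective (fun i => c i v)) ∧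
            ∀ i u v, G.Adj u v → c i v ≠ σ u v (c i u) := by
  -- constants
  obtain ⟨C, hCdef⟩ : ∃ C : ℝ, C = (1 + ε) / ε := ⟨_, rfl⟩
  have hC1 : 1 ≤ C := by
    rw [hCdef, le_div_iff₀ hε]; linarith
  have hC0 : 0 < C := by linarith
  obtain ⟨c5, hc5⟩ : ∃ c5 : ℝ, c5 = 46 * C ^ 4 := ⟨_, rfl⟩
  have hc50 : 0 < c5 := by rw [hc5]; positivity
  obtain ⟨κs, hκs⟩ : ∃ κs : ℝ, κs = Real.exp (-c5) / (8 * C ^ 2) := ⟨_, rfl⟩
  have hexp := Real.exp_pos (-c5)
  have hκs0 : 0 < κs := by rw [hκs]; positivity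
  obtain ⟨N, hN⟩ := exists_nat_gt (2 * C * C / κs)
  have hN0 : (0 : ℝ) < N := lt_trans (by positivity) hN
  obtain ⟨θ, hθ⟩ : ∃ θ : ℝ, θ = 1 / N := ⟨_, rfl⟩
  have hθ0 : 0 < θ := by rw [hθ]; positivity
  have hθκ : θ * (2 * C * C) ≤ κs := by
    rw [hθ, one_div, inv_mul_le_iff₀ hN0]
    rw [div_lt_iff₀ hκs0] at hN
    linarith
  obtain ⟨lam, hlam⟩ : ∃ lam : ℝ, lam = c5 * κs := ⟨_, rfl⟩
  have hlam0 : 0 < lam := by rw [hlam]; positivity
  obtain ⟨κ, hκ⟩ : ∃ κ : ℝ, κ = θ * (2 * C * C) + lam / c5 := ⟨_, rfl⟩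
  have hκ0 : 0 < κ := by rw [hκ]; positivity
  have hκ2 : κ ≤ 2 * κs := by
    rw [hκ, hlam]
    have : c5 * κs / c5 = κs := by field_simp
    rw [this]; linarith
  obtain ⟨cc, hcc⟩ : ∃ cc : ℝ, cc = (lam / 2) ^ 2 / (64 * C ^ 3) := ⟨_, rfl⟩
  have hcc0 : 0 < cc := by rw [hcc]; positivity
  obtain ⟨m₀, hm₀⟩ := exists_nat_gt (4 * 8 ^ N / cc ^ 2 + 24 * C ^ 5 / lam + 2 * C + 1)
  refine ⟨m₀, ?_⟩
  intro Δ m hmm hΔ V _ _ G _ hdeg σ hσ
  have hA1 : 0 < 4 * (8 : ℝ) ^ N / cc ^ 2 := by positivity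
  have hA2 : 0 < 24 * C ^ 5 / lam := by positivity
  have hmr : 4 * 8 ^ N / cc ^ 2 + 24 * C ^ 5 / lam + 2 * C + 1 < (m : ℝ) := by
    have : (m₀ : ℝ) ≤ m := by exact_mod_cast hmm
    linarith
  have hm1 : 4 * 8 ^ N / cc ^ 2 ≤ (m : ℝ) := by linarith
  have hm2 : 24 * C ^ 5 / lam ≤ (m : ℝ) := by linarith
  have hm3 : 2 * C ≤ (m : ℝ) := by linarith
  have hm' : (0 : ℝ) < m := by linarith
  have hm : 0 < m := by exact_mod_cast hm'
  have hΔm : Δ ≤ m := by
    have h1 : (Δ : ℝ) ≤ (1 + ε) * Δ := by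
      have : (0 : ℝ) ≤ Δ := Nat.cast_nonneg _
      nlinarith
    have : (Δ : ℝ) ≤ m := by linarith
    exact_mod_cast this
  obtain ⟨n0, hn0⟩ : ∃ n0 : ℕ, n0 = m - Δ := ⟨_, rfl⟩
  have hn0r : (n0 : ℝ) = m - Δ := by rw [hn0]; push_cast [hΔm]; ring
  have hCn : (m : ℝ) ≤ C * n0 := by
    rw [hn0r, hCdef, div_mul_eq_mul_div, le_div_iff₀ hε]
    nlinarith
  have hn2 : (2 : ℝ) ≤ n0 := by
    have : 2 * C ≤ C * n0 := by linarith
    nlinarith
  apply to_colourings
  have hlam1 : lam ≤ 1 := by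
    have h1 : c5 * Real.exp (-c5) ≤ 1 := by
      have h2 := Real.add_one_le_exp c5
      have h3 : Real.exp c5 * Real.exp (-c5) = 1 := by rw [← Real.exp_add]; simp
      have h4 : c5 * Real.exp (-c5) ≤ Real.exp c5 * Real.exp (-c5) :=
        mul_le_mul_of_nonneg_right (by linarith) hexp.le
      linarith
    rw [hlam, hκs, mul_div_assoc', div_le_one (by positivity)]
    have : (1 : ℝ) ≤ C ^ 2 := one_le_pow₀ hC1
    linarith
  have hpowm : (1 + c5 / m) ^ m ≤ Real.exp c5 := by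
    calc (1 + c5 / m) ^ m ≤ (Real.exp (c5 / m)) ^ m := by
          refine pow_le_pow_left₀ (by positivity) ?_ _
          have := Real.add_one_le_exp (c5 / (m : ℝ))
          linarith
      _ = Real.exp c5 := by
          rw [← Real.exp_nat_mul]
          congr 1
          field_simp
  have hp : Par m C c5 lam θ (2 * C * C) (1 / (2 * C ^ 2))
      (2 * Real.exp (-((lam / 2) ^ 2 * m / (64 * C ^ 3)))) (8 ^ N)
      (fun k => κ * ((1 + c5 / m) ^ k - 1)) n0 := by
    refine ⟨hm, hC1, hCn, by exact_mod_cast hn2, hc50.le, hlam0.le, hθ0.le, rfl, ?_, ?_, ?_, ?_,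
      ?_, ?_, ?_⟩
    · intro k
      have : (1 : ℝ) ≤ (1 + c5 / m) ^ k := one_le_pow₀ (by
        have : 0 < c5 / (m : ℝ) := by positivity
        linarith)
      exact mul_nonneg hκ0.le (by linarith)
    · intro k
      refine le_of_eq ?_
      have e1 : c5 * κ = c5 * (θ * (2 * C * C)) + lam := by
        rw [hκ]
        field_simp
      have e2 : c5 * (κ * ((1 + c5 / ↑m) ^ k - 1) + θ * (2 * C * C)) + lam =
        c5 * κ * (1 + c5 / ↑m) ^ k := by
        have : c5 * (κ * ((1 + c5 / ↑m) ^ k - 1) + θ * (2 * C * C)) + lam =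
          c5 * κ * (1 + c5 / ↑m) ^ k - c5 * κ + (c5 * (θ * (2 * C * C)) + lam) := by ring
        rw [this, ← e1]
        ring
      rw [e2, pow_succ]
      field_simp
      ring
    · intro k hk
      have h1 : (1 + c5 / m) ^ k ≤ Real.exp c5 :=
        (pow_le_pow_right₀ (by
          have : 0 < c5 / (m : ℝ) := by positivity
          linarith) hk).trans hpowm
      have h2 : θ * (2 * C * C) ≤ κ := by
        rw [hκ]
        have : 0 < lam / c5 := by positivity
        linarith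
      have h3 : κ * ((1 + c5 / m) ^ k - 1) + θ * (2 * C * C) ≤ κ * Real.exp c5 := by
        have := mul_le_mul_of_nonneg_left h1 hκ0.le
        linarith
      have h4 : κ * Real.exp c5 ≤ 2 * κs * Real.exp c5 :=
        mul_le_mul_of_nonneg_right hκ2 (Real.exp_pos _).le
      have h5 : 2 * κs * Real.exp c5 = 1 / (4 * C ^ 2) := by
        rw [hκs]
        have h3 : Real.exp (-c5) * Real.exp c5 = 1 := by rw [← Real.exp_add]; simp
        calc 2 * (Real.exp (-c5) / (8 * C ^ 2)) * Real.exp c5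
            = 2 * (Real.exp (-c5) * Real.exp c5) / (8 * C ^ 2) := by ring
          _ = 1 / (4 * C ^ 2) := by
            rw [h3]
            field_simp
            norm_num
      have h6 : 1 / (4 * C ^ 2) ≤ 1 / (2 * C ^ 2) :=
        one_div_le_one_div_of_le (by positivity) (by nlinarith [sq_nonneg C])
      linarith
    · exact one_le_pow₀ (by norm_num)
    · intro b hb
      rw [← pow_mul] at hb
      have h1 : N * b ≤ m := by
        by_contra hc
        push Not at hc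
        have := pow_lt_pow_right₀ (by norm_num : (1 : ℝ) < 8) hc
        linarith
      have h2 : (N : ℝ) * b ≤ m := by exact_mod_cast h1
      rw [hθ, one_div, inv_mul_eq_div, le_div_iff₀ hN0]
      linarith
    · positivity
    · -- smallness of the failure probability
      have h1 : (0 : ℝ) ≤ cc * m := by positivity
      have h2 := Real.quadratic_le_exp_of_nonneg h1
      have e1 : (lam / 2) ^ 2 * m / (64 * C ^ 3) = cc * m := by rw [hcc]; ring
      rw [e1, Real.exp_neg]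
      have h3 : (cc * m) ^ 2 / 2 ≤ Real.exp (cc * m) := by nlinarith
      have h4 : 0 < Real.exp (cc * m) := Real.exp_pos _
      have h5 : 4 * 8 ^ N ≤ (m : ℝ) * cc ^ 2 := by
        rw [div_le_iff₀ (by positivity)] at hm1
        exact hm1
      have h6 : (m : ℝ) * ((8 ^ N - 1) * (2 * (Real.exp (cc * m))⁻¹)) =
        (2 * m * (8 ^ N - 1)) / Real.exp (cc * m) := by
        rw [div_eq_mul_inv]; ring
      rw [h6, div_le_one h4]
      have h7 : 2 * (m : ℝ) * 8 ^ N ≤ (cc * m) ^ 2 / 2 := by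
        have := mul_le_mul_of_nonneg_left h5 hm'.le
        nlinarith
      linarith
  have hK0 : (m : ℝ) - Δ = n0 := by rw [hn0r]
  have hζ : 1 / (2 * C ^ 2) * (m : ℝ) ^ 2 < ((m : ℝ) - Δ) ^ 2 := by
    rw [hK0]
    have h1 : (m : ℝ) ^ 2 ≤ (C * n0) ^ 2 := pow_le_pow_left₀ hm'.le hCn 2
    have h2 : (0 : ℝ) < n0 := by linarith
    calc 1 / (2 * C ^ 2) * (m : ℝ) ^ 2 ≤ 1 / (2 * C ^ 2) * (C * n0) ^ 2 :=
          mul_le_mul_of_nonneg_left h1 (by positivity)
      _ = (n0 : ℝ) ^ 2 / 2 := by field_simp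
      _ < (n0 : ℝ) ^ 2 := by
          have : 0 < (n0 : ℝ) ^ 2 := by positivity
          linarith
  have hconc : Conc (m := m) (fun _ _ => 1) Δ C c5 lam (2 * C) (1 / (2 * C ^ 2))
      (2 * Real.exp (-((lam / 2) ^ 2 * m / (64 * C ^ 3)))) := by
    have h1 := conc_one hm Δ hΔm C (lam / 2) (1 / (2 * C ^ 2)) hC1 hζ (by linarith)
      (by nlinarith) (by
        rw [div_le_iff₀ hlam0] at hm2
        linarith)
    have e1 : 2 * (lam / 2) = lam := by ring
    rw [e1, ← hc5] at h1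
    exact h1
  refine process G σ hσ ∅ (fun _ => 1) (fun u hu => absurd hu (by simp)) (fun _ _ _ => 1)
    (fun _ => 0) hp Δ (fun _ _ _ _ => zero_le_one) ?_ (fun _ _ _ _ _ => one_pos) ?_ ?_ ?_
    (fun _ _ => hconc)
  · intro v _ i c hc
    exact absurd (fun u hu => absurd hu (by simp)) hc
  · intro v _ i c
    simp
  · intro v _
    have h1 : dg G (univ \ ∅) v ≤ Δ := by
      rw [sdiff_empty, dg_univ]
      exact hdeg v
    omega
  · intro v _
    rw [dg_univ]
    exact hdeg v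

end Pool.Agent.Helper34.AD
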