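import Pool.Agent.Helper34.AD.Est

set_option autoImplicit false

namespace Pool.Agent.Helper34.AD

open Finset

variable {m : ℕ} {W h : Fin m → Fin m → ℝ} {C ζ H : ℝ}

/-- linear statistic -/
def XX (h : Fin m → Fin m → ℝ) (f : Equiv.Perm (Fin m)) : ℝ := ∑ i, h i (f i)

/-- tilted partition function -/
noncomputable def ZZ (W h : Fin m → Fin m → ℝ) (θ : ℝ) : ℝ :=
  ∑ f : Equiv.Perm (Fin m), wt W f * Real.exp (θ * XX h f)

theorem wt_nn (hW : ∀ i c, 0 ≤ W i c) (f : Equiv.Perm (Fin m)) : 0 ≤ wt W f :=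
  prod_nonneg (fun i _ => hW i (f i))

theorem XX_rot (hh0 : ∀ i c, 0 ≤ h i c) (hhH : ∀ i c, h i c ≤ H) (hH : 0 ≤ H)
    (f : Equiv.Perm (Fin m)) {i0 i1 i2 i3 : Fin m} :
    XX h (f * rot i0 i1 i2 i3) ≤ XX h f + 4 * H := by
  classical
  have h1 : XX h (f * rot i0 i1 i2 i3) - XX h f ≤
      ∑ i, (if i ∈ ({i0, i1, i2, i3} : Finset (Fin m)) then H else 0) := by
    unfold XX
    rw [← sum_sub_distrib]
    refine sum_le_sum (fun i _ => ?_)
    split_ifs with hi
    · linarith [hhH i ((f * rot i0 i1 i2 i3) i), hh0 i (f i)]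
    · simp only [mem_insert, mem_singleton, not_or] at hi
      rw [Equiv.Perm.mul_apply, rot_other hi.1 hi.2.1 hi.2.2.1 hi.2.2.2, sub_self]
  have h2 : ∑ i, (if i ∈ ({i0, i1, i2, i3} : Finset (Fin m)) then H else 0) ≤ 4 * H := by
    rw [← sum_filter, sum_const, nsmul_eq_mul]
    refine mul_le_mul_of_nonneg_right ?_ hH
    have : (univ.filter (fun i => i ∈ ({i0, i1, i2, i3} : Finset (Fin m)))) =
      ({i0, i1, i2, i3} : Finset (Fin m)) := by ext; simp
    rw [this]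
    exact_mod_cast card_le_four
  linarith

theorem stepA_one (hW : ∀ i c, 0 ≤ W i c) (hh0 : ∀ i c, 0 ≤ h i c) (hhH : ∀ i c, h i c ≤ H)
    (hH : 0 ≤ H) (θ : ℝ) (hθ : 0 ≤ θ) (i0 : Fin m) :
    ∑ f, wt W f * Real.exp (θ * XX h f) * (h i0 (f i0) * SS W f i0) ≤
      Real.exp (4 * H * θ) * ∑ f, wt W f * Real.exp (θ * XX h f) * RR W h f i0 := by
  have e := exchange W i0 (fun f _ => h i0 (f i0) * Real.exp (θ * XX h f))
  have e1 : ∑ f, ∑ i1, ∑ i2, ∑ i3, (if D4 i0 i1 i2 i3 then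
      wt W f * T W f i0 i1 i2 i3 * (h i0 (f i0) * Real.exp (θ * XX h f)) else 0) =
      ∑ f, wt W f * Real.exp (θ * XX h f) * (h i0 (f i0) * SS W f i0) := by
    refine sum_congr rfl (fun f _ => ?_)
    unfold SS
    simp only [mul_sum]
    refine sum_congr rfl (fun i1 _ => sum_congr rfl (fun i2 _ => sum_congr rfl (fun i3 _ => ?_)))
    split_ifs
    · ring
    · ring
  rw [← e1, e, mul_sum]
  refine sum_le_sum (fun f _ => ?_)
  unfold RR
  simp only [mul_sum]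
  refine sum_le_sum (fun i1 _ => sum_le_sum (fun i2 _ => sum_le_sum (fun i3 _ => ?_)))
  split_ifs with hD
  · have hr : (f * rot i0 i1 i2 i3) i0 = f i1 := by rw [Equiv.Perm.mul_apply, rot_0 hD]
    rw [hr]
    have h1 : Real.exp (θ * XX h (f * rot i0 i1 i2 i3)) ≤
        Real.exp (4 * H * θ) * Real.exp (θ * XX h f) := by
      rw [← Real.exp_add]
      refine Real.exp_le_exp.2 ?_
      have := mul_le_mul_of_nonneg_left (XX_rot hh0 hhH hH f (i0 := i0) (i1 := i1) (i2 := i2)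
        (i3 := i3)) hθ
      linarith
    have h2 : 0 ≤ wt W f * T W f i0 i1 i2 i3 * h i0 (f i1) :=
      mul_nonneg (mul_nonneg (wt_nn hW f) (T_nn hW _ _ _ _ _)) (hh0 _ _)
    have h3 := mul_le_mul_of_nonneg_left h1 h2
    calc wt W f * T W f i0 i1 i2 i3 * (h i0 (f i1) * Real.exp (θ * XX h (f * rot i0 i1 i2 i3)))
        = wt W f * T W f i0 i1 i2 i3 * h i0 (f i1) *
          Real.exp (θ * XX h (f * rot i0 i1 i2 i3)) := by ring
      _ ≤ _ := h3
      _ = _ := by ring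
  · simp

theorem stepA (hW : ∀ i c, 0 ≤ W i c) (hh0 : ∀ i c, 0 ≤ h i c) (hhH : ∀ i c, h i c ≤ H)
    (hH : 0 ≤ H) (θ : ℝ) (hθ : 0 ≤ θ) :
    ∑ f, wt W f * Real.exp (θ * XX h f) * (∑ i, h i (f i) * SS W f i) ≤
      Real.exp (4 * H * θ) * ∑ f, wt W f * Real.exp (θ * XX h f) * (∑ i, RR W h f i) := by
  have h1 := sum_le_sum (fun i (_ : i ∈ (univ : Finset (Fin m))) =>
    stepA_one hW hh0 hhH hH θ hθ i)
  rw [← mul_sum] at h1
  have e1 : ∑ i, ∑ f, wt W f * Real.exp (θ * XX h f) * (h i (f i) * SS W f i) =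
      ∑ f, wt W f * Real.exp (θ * XX h f) * (∑ i, h i (f i) * SS W f i) := by
    rw [sum_comm]
    exact sum_congr rfl (fun f _ => by rw [mul_sum])
  have e2 : ∑ i, ∑ f, wt W f * Real.exp (θ * XX h f) * RR W h f i =
      ∑ f, wt W f * Real.exp (θ * XX h f) * (∑ i, RR W h f i) := by
    rw [sum_comm]
    exact sum_congr rfl (fun f _ => by rw [mul_sum])
  rw [e1, e2] at h1
  exact h1

/-- derivative of the partition function -/
theorem ZZ_deriv (W h : Fin m → Fin m → ℝ) (θ : ℝ) :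
    HasDerivAt (ZZ W h) (∑ f, wt W f * Real.exp (θ * XX h f) * XX h f) θ := by
  unfold ZZ
  refine HasDerivAt.fun_sum (fun f _ => ?_)
  have h1 : HasDerivAt (fun θ : ℝ => θ * XX h f) (XX h f) θ := by
    simpa using (hasDerivAt_id θ).mul_const (XX h f)
  have h2 := (h1.exp).const_mul (wt W f)
  rw [← mul_assoc] at h2
  exact h2

theorem deriv_ineq (g : Good W C ζ) (hh0 : ∀ i c, 0 ≤ h i c) (hhH : ∀ i c, h i c ≤ H)
    (hH : 0 < H) (θ : ℝ) (hθ : 0 ≤ θ) (hθ1 : 8 * H * θ ≤ 1) :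
    ∑ f, wt W f * Real.exp (θ * XX h f) * XX h f ≤
      ((∑ i, ∑ c, W i c * h i c) + 22 * H * C ^ 3 * ζ * m + 6 * H * C ^ 4 +
        8 * H ^ 2 * C * m * θ) * ZZ W h θ := by
  have hm := g.m0
  have hC1 := g.C1
  have hC0 : 0 ≤ C := by linarith
  have hζ := g.ζ0
  set Hb := ∑ i, ∑ c, W i c * h i c with hHb
  have hHb0 : 0 ≤ Hb := sum_nonneg (fun i _ => sum_nonneg (fun c _ => mul_nonneg (g.nn _ _) (hh0 _ _)))
  have hHbU : Hb ≤ H * C * m := hbar_le g hh0 hhH hH.le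
  have hE0 : ∀ f, 0 ≤ wt W f * Real.exp (θ * XX h f) :=
    fun f => mul_nonneg (wt_nn g.nn f) (Real.exp_pos _).le
  have hZ0 : 0 ≤ ZZ W h θ := sum_nonneg (fun f _ => hE0 f)
  -- step C
  have h1 : ∑ f, wt W f * Real.exp (θ * XX h f) * (∑ i, h i (f i) * (1 / m - SS W f i)) ≤
      (7 * H * C ^ 3 * ζ + 6 * H * C ^ 4 / m) * ZZ W h θ := by
    unfold ZZ
    rw [mul_sum]
    refine sum_le_sum (fun f _ => ?_)
    rw [mul_comm (7 * H * C ^ 3 * ζ + 6 * H * C ^ 4 / m)]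
    exact mul_le_mul_of_nonneg_left (stepC g hh0 hhH hH.le f) (hE0 f)
  have h2 := stepA g.nn hh0 hhH hH.le θ hθ
  have h3 : ∑ f, wt W f * Real.exp (θ * XX h f) * (∑ i, RR W h f i) ≤
      (Hb / m + 5 * H * C ^ 3 * ζ) * ZZ W h θ := by
    unfold ZZ
    rw [mul_sum]
    refine sum_le_sum (fun f _ => ?_)
    rw [mul_comm (Hb / m + 5 * H * C ^ 3 * ζ)]
    exact mul_le_mul_of_nonneg_left (stepB g hh0 hhH hH.le f) (hE0 f)
  have h4 : ∑ f, wt W f * Real.exp (θ * XX h f) * XX h f =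
      m * (∑ f, wt W f * Real.exp (θ * XX h f) * (∑ i, h i (f i) * (1 / m - SS W f i)) +
      ∑ f, wt W f * Real.exp (θ * XX h f) * (∑ i, h i (f i) * SS W f i)) := by
    rw [← sum_add_distrib, mul_sum]
    refine sum_congr rfl (fun f _ => ?_)
    have e : ∑ i, h i (f i) * (1 / m - SS W f i) + ∑ i, h i (f i) * SS W f i = XX h f / m := by
      rw [← sum_add_distrib]
      unfold XX
      rw [sum_div]
      exact sum_congr rfl (fun i _ => by ring)
    have e2 : wt W f * Real.exp (θ * XX h f) * (∑ i, h i (f i) * (1 / m - SS W f i)) +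
      wt W f * Real.exp (θ * XX h f) * (∑ i, h i (f i) * SS W f i) =
      wt W f * Real.exp (θ * XX h f) * (XX h f / m) := by rw [← e]; ring
    rw [e2]
    field_simp
  have hexp : Real.exp (4 * H * θ) ≤ 1 + 8 * H * θ := by
    have hx0 : 0 ≤ 4 * H * θ := by positivity
    have hx1 : 4 * H * θ ≤ 1 / 2 := by linarith
    have h5 : 1 - 4 * H * θ ≤ Real.exp (-(4 * H * θ)) := by
      have := Real.add_one_le_exp (-(4 * H * θ))
      linarith
    have h6 : Real.exp (4 * H * θ) * Real.exp (-(4 * H * θ)) = 1 := by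
      rw [← Real.exp_add]; simp
    have h7 := Real.exp_pos (4 * H * θ)
    have h8 : Real.exp (4 * H * θ) * (1 - 4 * H * θ) ≤ 1 :=
      (mul_le_mul_of_nonneg_left h5 h7.le).trans h6.le
    nlinarith
  have h5 : Real.exp (4 * H * θ) *
      ∑ f, wt W f * Real.exp (θ * XX h f) * (∑ i, RR W h f i) ≤
      (1 + 8 * H * θ) * ((Hb / m + 5 * H * C ^ 3 * ζ) * ZZ W h θ) := by
    calc Real.exp (4 * H * θ) * ∑ f, wt W f * Real.exp (θ * XX h f) * (∑ i, RR W h f i)
        ≤ Real.exp (4 * H * θ) * ((Hb / m + 5 * H * C ^ 3 * ζ) * ZZ W h θ) :=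
          mul_le_mul_of_nonneg_left h3 (Real.exp_pos _).le
      _ ≤ _ := mul_le_mul_of_nonneg_right hexp (by positivity)
  rw [h4]
  have h6 : ∑ f, wt W f * Real.exp (θ * XX h f) * (∑ i, h i (f i) * (1 / m - SS W f i)) +
      ∑ f, wt W f * Real.exp (θ * XX h f) * (∑ i, h i (f i) * SS W f i) ≤
      ((7 * H * C ^ 3 * ζ + 6 * H * C ^ 4 / m) +
        (1 + 8 * H * θ) * (Hb / m + 5 * H * C ^ 3 * ζ)) * ZZ W h θ := by
    have := (h2.trans h5)
    linarith
  have h7 := mul_le_mul_of_nonneg_left h6 hm.le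
  refine h7.trans ?_
  rw [← mul_assoc]
  refine mul_le_mul_of_nonneg_right ?_ hZ0
  have e : (m : ℝ) * ((7 * H * C ^ 3 * ζ + 6 * H * C ^ 4 / m) +
        (1 + 8 * H * θ) * (Hb / m + 5 * H * C ^ 3 * ζ)) =
      7 * H * C ^ 3 * ζ * m + 6 * H * C ^ 4 + (1 + 8 * H * θ) * (Hb + 5 * H * C ^ 3 * ζ * m) := by
    field_simp
  rw [e]
  have h8 : 8 * H * θ * (5 * H * C ^ 3 * ζ * m) ≤ 1 * (5 * H * C ^ 3 * ζ * m) :=
    mul_le_mul_of_nonneg_right hθ1 (by positivity)
  have h9 : 8 * H * θ * Hb ≤ 8 * H * θ * (H * C * m) :=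
    mul_le_mul_of_nonneg_left hHbU (by positivity)
  have h10 : 0 ≤ H * C ^ 3 * ζ * m := by positivity
  nlinarith

theorem ZZ_bound (g : Good W C ζ) (hh0 : ∀ i c, 0 ≤ h i c) (hhH : ∀ i c, h i c ≤ H)
    (hH : 0 < H) (θ : ℝ) (hθ : 0 ≤ θ) (hθ1 : 8 * H * θ ≤ 1) (a b : ℝ)
    (ha : a = (∑ i, ∑ c, W i c * h i c) + 22 * H * C ^ 3 * ζ * m + 6 * H * C ^ 4)
    (hb : b = 8 * H ^ 2 * C * m) :
    ZZ W h θ ≤ ZZ W h 0 * Real.exp (a * θ + b * θ ^ 2 / 2) := by
  set Gf : ℝ → ℝ := fun t => ZZ W h t * Real.exp (-(a * t + b * t ^ 2 / 2)) with hGf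
  have hder : ∀ t, HasDerivAt Gf
      ((∑ f, wt W f * Real.exp (t * XX h f) * XX h f) * Real.exp (-(a * t + b * t ^ 2 / 2)) +
        ZZ W h t * (Real.exp (-(a * t + b * t ^ 2 / 2)) * (-(a + b * t)))) t := by
    intro t
    have h1 : HasDerivAt (fun t : ℝ => -(a * t + b * t ^ 2 / 2)) (-(a + b * t)) t := by
      have h2 : HasDerivAt (fun t : ℝ => a * t) a t := by
        simpa using (hasDerivAt_id t).const_mul a
      have h3 : HasDerivAt (fun t : ℝ => b * t ^ 2 / 2) (b * t) t := by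
        have h4 : HasDerivAt (fun t : ℝ => t ^ 2) (2 * t) t := by
          simpa using hasDerivAt_pow 2 t
        have h5 := (h4.const_mul b).div_const 2
        have e : b * (2 * t) / 2 = b * t := by ring
        rw [e] at h5
        exact h5
      exact (h2.add h3).neg
    exact (ZZ_deriv W h t).mul h1.exp
  have hanti : AntitoneOn Gf (Set.Icc 0 (1 / (8 * H))) := by
    refine antitoneOn_of_deriv_nonpos (convex_Icc _ _) ?_ ?_ ?_
    · exact fun t _ => (hder t).continuousAt.continuousWithinAt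
    · exact fun t _ => (hder t).differentiableAt.differentiableWithinAt
    · intro t ht
      rw [interior_Icc] at ht
      rw [(hder t).deriv]
      have ht1 : 8 * H * t ≤ 1 := by
        have := ht.2.le
        rw [le_div_iff₀ (by positivity)] at this
        linarith
      have h4 := deriv_ineq g hh0 hhH hH t ht.1.le ht1
      have h5 := Real.exp_pos (-(a * t + b * t ^ 2 / 2))
      have h6 : (∑ f, wt W f * Real.exp (t * XX h f) * XX h f) ≤ (a + b * t) * ZZ W h t := by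
        rw [ha, hb]; exact h4
      have h7 := mul_le_mul_of_nonneg_right h6 h5.le
      linarith
  have h0 : (0 : ℝ) ∈ Set.Icc 0 (1 / (8 * H)) := ⟨le_rfl, by positivity⟩
  have hθm : θ ∈ Set.Icc 0 (1 / (8 * H)) := by
    refine ⟨hθ, ?_⟩
    rw [le_div_iff₀ (by positivity)]
    linarith
  have h1 := hanti h0 hθm hθ
  simp only [hGf] at h1
  have h2 : Real.exp (-(a * 0 + b * 0 ^ 2 / 2)) = 1 := by simp
  rw [h2, mul_one, Real.exp_neg] at h1
  have h3 := Real.exp_pos (a * θ + b * θ ^ 2 / 2)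
  rw [← div_eq_mul_inv, div_le_iff₀ h3] at h1
  exact h1

theorem ZZ_zero : ZZ W h 0 = ∑ f, wt W f := by
  unfold ZZ
  simp

theorem upper_tail (g : Good W C ζ) (hh0 : ∀ i c, 0 ≤ h i c) (hhH : ∀ i c, h i c ≤ H)
    (hH : 0 < H) (lam : ℝ) (hl0 : 0 ≤ lam) (hl1 : lam ≤ H * C) (a : ℝ)
    (ha : a = (∑ i, ∑ c, W i c * h i c) + 22 * H * C ^ 3 * ζ * m + 6 * H * C ^ 4) :
    ∑ f ∈ univ.filter (fun f => a + lam * m ≤ XX h f), wt W f ≤
      (∑ f, wt W f) * Real.exp (-(lam ^ 2 * m / (16 * H ^ 2 * C))) := by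
  have hm := g.m0
  have hC1 := g.C1
  have hC0 : 0 < C := by linarith
  set θ : ℝ := lam / (8 * H ^ 2 * C) with hθ
  have hθ0 : 0 ≤ θ := by positivity
  have hθ1 : 8 * H * θ ≤ 1 := by
    rw [hθ]
    rw [mul_div_assoc', div_le_one (by positivity)]
    nlinarith
  have h1 := ZZ_bound g hh0 hhH hH θ hθ0 hθ1 a (8 * H ^ 2 * C * m) ha rfl
  rw [ZZ_zero] at h1
  have h2 : (∑ f ∈ univ.filter (fun f => a + lam * m ≤ XX h f), wt W f) *
      Real.exp (θ * (a + lam * m)) ≤ ZZ W h θ := by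
    rw [sum_mul]
    unfold ZZ
    calc ∑ f ∈ univ.filter (fun f => a + lam * m ≤ XX h f), wt W f * Real.exp (θ * (a + lam * m))
        ≤ ∑ f ∈ univ.filter (fun f => a + lam * m ≤ XX h f), wt W f * Real.exp (θ * XX h f) := by
          refine sum_le_sum (fun f hf => ?_)
          rw [mem_filter] at hf
          exact mul_le_mul_of_nonneg_left (Real.exp_le_exp.2
            (mul_le_mul_of_nonneg_left hf.2 hθ0)) (wt_nn g.nn f)
      _ ≤ ∑ f, wt W f * Real.exp (θ * XX h f) := by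
          refine sum_le_sum_of_subset_of_nonneg (filter_subset _ _) (fun f _ _ => ?_)
          exact mul_nonneg (wt_nn g.nn f) (Real.exp_pos _).le
  have h3 := h2.trans h1
  have h4 : Real.exp (a * θ + 8 * H ^ 2 * C * m * θ ^ 2 / 2) =
      Real.exp (-(lam ^ 2 * m / (16 * H ^ 2 * C))) * Real.exp (θ * (a + lam * m)) := by
    rw [← Real.exp_add]
    congr 1
    rw [hθ]
    field_simp
    ring
  rw [h4, ← mul_assoc] at h3
  exact le_of_mul_le_mul_right h3 (Real.exp_pos _)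

theorem two_sided (g : Good W C ζ) (hh0 : ∀ i c, 0 ≤ h i c) (hhH : ∀ i c, h i c ≤ H)
    (hH : 0 < H) (lam : ℝ) (hl0 : 0 ≤ lam) (hl1 : lam ≤ H * C) :
    ∑ f ∈ univ.filter (fun f => (23 * H * C ^ 3 * ζ + lam) * m + 6 * H * C ^ 4 ≤
      |XX h f - ∑ i, ∑ c, W i c * h i c|), wt W f ≤
      (∑ f, wt W f) * (2 * Real.exp (-(lam ^ 2 * m / (16 * H ^ 2 * C)))) := by
  have hm := g.m0
  have hC1 := g.C1
  have hC0 : 0 < C := by linarith
  have hζ := g.ζ0
  set Hb := ∑ i, ∑ c, W i c * h i c with hHb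
  have h1 := upper_tail g hh0 hhH hH lam hl0 hl1 _ rfl
  have h2 := upper_tail (h := fun i c => H - h i c) g (fun i c => by linarith [hhH i c])
    (fun i c => by linarith [hh0 i c]) hH lam hl0 hl1 _ rfl
  have hX : ∀ f, XX (fun i c => H - h i c) f = H * m - XX h f := by
    intro f
    unfold XX
    rw [sum_sub_distrib, sum_const, card_univ, Fintype.card_fin, nsmul_eq_mul]
    ring
  have hW2 : ∑ i, ∑ c, W i c * (H - h i c) = H * (∑ i, ∑ c, W i c) - Hb := by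
    rw [hHb, mul_sum, ← sum_sub_distrib]
    refine sum_congr rfl (fun i _ => ?_)
    rw [mul_sum, ← sum_sub_distrib]
    exact sum_congr rfl (fun c _ => by ring)
  have htot := g.total_le
  have hsub : univ.filter (fun f => (23 * H * C ^ 3 * ζ + lam) * m + 6 * H * C ^ 4 ≤
      |XX h f - Hb|) ⊆
      univ.filter (fun f => Hb + 22 * H * C ^ 3 * ζ * m + 6 * H * C ^ 4 + lam * m ≤ XX h f) ∪
      univ.filter (fun f => (∑ i, ∑ c, W i c * (H - h i c)) + 22 * H * C ^ 3 * ζ * m +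
        6 * H * C ^ 4 + lam * m ≤ XX (fun i c => H - h i c) f) := by
    intro f hf
    rw [mem_filter] at hf
    rw [mem_union, mem_filter, mem_filter]
    have hf2 := hf.2
    have hp : 0 ≤ H * C ^ 3 * ζ * m := by positivity
    rcases le_or_gt Hb (XX h f) with hc | hc
    · left
      refine ⟨mem_univ _, ?_⟩
      rw [abs_of_nonneg (by linarith)] at hf2
      nlinarith
    · right
      refine ⟨mem_univ _, ?_⟩
      rw [abs_of_neg (by linarith)] at hf2
      rw [hX, hW2]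
      have h3 : H * (∑ i, ∑ c, W i c) ≤ H * (m + ζ * m) :=
        mul_le_mul_of_nonneg_left htot hH.le
      have h4 : H * (ζ * m) ≤ H * C ^ 3 * ζ * m := by
        have : 1 ≤ C ^ 3 := one_le_pow₀ hC1
        have h5 : 0 ≤ H * (ζ * m) := by positivity
        nlinarith
      nlinarith
  have hs1 := sum_le_sum_of_subset_of_nonneg hsub (fun f _ _ => wt_nn g.nn f)
  have hs2 := sum_union_inter (f := fun f => wt W f)
    (s₁ := univ.filter (fun f => Hb + 22 * H * C ^ 3 * ζ * m + 6 * H * C ^ 4 + lam * m ≤ XX h f))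
    (s₂ := univ.filter (fun f => (∑ i, ∑ c, W i c * (H - h i c)) + 22 * H * C ^ 3 * ζ * m +
        6 * H * C ^ 4 + lam * m ≤ XX (fun i c => H - h i c) f))
  have hs3 : 0 ≤ ∑ f ∈ univ.filter (fun f => Hb + 22 * H * C ^ 3 * ζ * m + 6 * H * C ^ 4 +
      lam * m ≤ XX h f) ∩ univ.filter (fun f => (∑ i, ∑ c, W i c * (H - h i c)) +
        22 * H * C ^ 3 * ζ * m + 6 * H * C ^ 4 + lam * m ≤ XX (fun i c => H - h i c) f), wt W f :=
    sum_nonneg (fun f _ => wt_nn g.nn f)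
  linarith

end Pool.Agent.Helper34.AD
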