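import Pool.Agent.Helper34.AD.Upd
import Pool.Agent.Helper34.AD.Avg
import Pool.Agent.Helper34.CP.Main

set_option autoImplicit false

namespace Pool.Agent.Helper34.AD

open Finset Pool.Agent.Helper34.CP

variable {V : Type} [Fintype V] [DecidableEq V] {m : ℕ}

theorem adm_insert (G : SimpleGraph V) (σ : V → V → Equiv.Perm (Fin m)) (U : Finset V)
    (π : V → Equiv.Perm (Fin m)) (u : V) (hu : u ∉ U) (f : Equiv.Perm (Fin m)) (v : V)
    (i c : Fin m) :
    Adm G σ (insert u U) (Function.update π u f) v i c ↔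
      Adm G σ U π v i c ∧ (G.Adj u v → c ≠ σ u v (f i)) := by
  unfold Adm
  constructor
  · intro h
    refine ⟨fun w hw hwv => ?_, fun huv => ?_⟩
    · have h1 := h w (mem_insert_of_mem hw) hwv
      have hne : w ≠ u := fun hc => hu (hc ▸ hw)
      rwa [Function.update_of_ne hne] at h1
    · have h1 := h u (mem_insert_self _ _) huv
      rwa [Function.update_self] at h1
  · rintro ⟨h1, h2⟩ w hw hwv
    rw [mem_insert] at hw
    by_cases hwu : w = u
    · subst hwu
      rw [Function.update_self]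
      exact h2 hwv
    · rw [Function.update_of_ne hwu]
      exact h1 w (hw.resolve_left hwu) hwv

theorem nonadm_row (G : SimpleGraph V) [DecidableRel G.Adj] (σ : V → V → Equiv.Perm (Fin m))
    (U : Finset V) (π : V → Equiv.Perm (Fin m)) (v : V)
    [∀ i c, Decidable (Adm G σ U π v i c)] (i : Fin m) :
    (univ.filter (fun c => ¬ Adm G σ U π v i c)).card ≤ dg G U v := by
  have h2 : (univ.filter (fun b => ¬ Adm G σ U π v i b)) ⊆
      (U.filter (fun u => G.Adj u v)).image (fun u => σ u v (π u i)) := by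
    intro b hb
    rw [mem_filter] at hb
    have := hb.2
    unfold Adm at this
    push Not at this
    obtain ⟨u, hu, huv, hb⟩ := this
    rw [mem_image]
    exact ⟨u, by rw [mem_filter]; exact ⟨hu, huv⟩, hb.symm⟩
  exact (card_le_card h2).trans card_image_le

theorem nonadm_col (G : SimpleGraph V) [DecidableRel G.Adj] (σ : V → V → Equiv.Perm (Fin m))
    (U : Finset V) (π : V → Equiv.Perm (Fin m)) (v : V)
    [∀ i c, Decidable (Adm G σ U π v i c)] (c : Fin m) :
    (univ.filter (fun i => ¬ Adm G σ U π v i c)).card ≤ dg G U v := by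
  have h2 : (univ.filter (fun i => ¬ Adm G σ U π v i c)) ⊆
      (U.filter (fun u => G.Adj u v)).image (fun u => (π u).symm ((σ u v).symm c)) := by
    intro i hi
    rw [mem_filter] at hi
    have := hi.2
    unfold Adm at this
    push Not at this
    obtain ⟨u, hu, huv, hb⟩ := this
    rw [mem_image]
    refine ⟨u, by rw [mem_filter]; exact ⟨hu, huv⟩, ?_⟩
    rw [hb]
    simp
  exact (card_le_card h2).trans card_image_le

/-- The abstract concentration hypothesis for tables close to `base`. -/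
def Conc (base : Fin m → Fin m → ℝ) (K0 : ℕ) (C c5 lam H ζmax ρ₀ : ℝ) : Prop :=
  ∀ (M : Fin m → Fin m → ℝ) (ζ : ℝ), 0 ≤ ζ → ζ ≤ ζmax → (∀ i c, 0 ≤ M i c) →
    (∀ i c, M i c ≤ C) → (∀ i c, M i c = 0 ∨ base i c ≤ M i c) →
    (∀ i, (univ.filter (fun c => M i c = 0)).card ≤ K0) →
    (∀ c, (univ.filter (fun i => M i c = 0)).card ≤ K0) →
    (∀ A B : Finset (Fin m), |∑ i ∈ A, ∑ c ∈ B, (M i c - base i c)| ≤ ζ * (m : ℝ) ^ 2) →
    0 < ∑ f, wt (fun i c => M i c / m) f ∧
    ∀ h : Fin m → Fin m → ℝ, (∀ i c, 0 ≤ h i c) → (∀ i c, h i c ≤ H) →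
      ∑ f ∈ univ.filter (fun f => (c5 * ζ + lam) * m ≤
        |XX h f - ∑ i, ∑ c, M i c / m * h i c|), wt (fun i c => M i c / m) f ≤
      (∑ f, wt (fun i c => M i c / m) f) * ρ₀

/-- The invariants of the colouring process. -/
structure Inv (G : SimpleGraph V) [DecidableRel G.Adj] (σ : V → V → Equiv.Perm (Fin m))
    (Y : Finset V) (base : V → Fin m → Fin m → ℝ) (e : V → ℕ) (z : ℕ → ℝ) (C1 ω : ℝ)
    (U : Finset V) (π : V → Equiv.Perm (Fin m)) (M : V → Fin m → Fin m → ℝ)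
    (bad : V → Finset (Fin m) × Finset (Fin m) → ℕ) : Prop where
  sub : Y ⊆ U
  pack : PackOn G σ U π
  nn : ∀ v, v ∉ U → ∀ i c, 0 ≤ M v i c
  zero : ∀ v, v ∉ U → ∀ i c, ¬ Adm G σ U π v i c → M v i c = 0
  pos : ∀ v, v ∉ U → ∀ i c, Adm G σ U π v i c → 0 < M v i c
  lower : ∀ v, v ∉ U → ∀ i c, Adm G σ U π v i c → base v i c ≤ M v i c
  upper : ∀ v, v ∉ U → ∀ i c, M v i c * ((m : ℝ) - ((e v + dg G (U \ Y) v : ℕ) : ℝ)) ≤ m
  pot : ∀ v, v ∉ U → ∑ R : Finset (Fin m) × Finset (Fin m), ω ^ (bad v R) ≤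
    (4 : ℝ) ^ m * 2 ^ (dg G (U \ Y) v)
  cut : ∀ v, v ∉ U → ∀ A B : Finset (Fin m), |∑ i ∈ A, ∑ c ∈ B, (M v i c - base v i c)| ≤
    z (e v + dg G (U \ Y) v) * (m : ℝ) ^ 2 + (bad v (A, B) : ℝ) * (C1 * m)

theorem dg_mono (G : SimpleGraph V) [DecidableRel G.Adj] {A B : Finset V} (h : A ⊆ B) (v : V) :
    dg G A v ≤ dg G B v := card_le_card (filter_subset_filter _ h)

end Pool.Agent.Helper34.AD
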