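import Mathlib

set_option autoImplicit false

namespace Pool.Agent.Helper34.AD

open Finset

variable {m : ℕ}

/-- weight of a permutation -/
def wt (W : Fin m → Fin m → ℝ) (f : Equiv.Perm (Fin m)) : ℝ := ∏ i, W i (f i)

/-- the 4-cycle `i0 ↦ i1 ↦ i2 ↦ i3 ↦ i0` -/
def rot (i0 i1 i2 i3 : Fin m) : Equiv.Perm (Fin m) :=
  Equiv.swap i0 i1 * Equiv.swap i1 i2 * Equiv.swap i2 i3

/-- pairwise distinct -/
def D4 (i0 i1 i2 i3 : Fin m) : Prop :=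
  i1 ≠ i0 ∧ i2 ≠ i0 ∧ i3 ≠ i0 ∧ i2 ≠ i1 ∧ i3 ≠ i1 ∧ i3 ≠ i2

instance (i0 i1 i2 i3 : Fin m) : Decidable (D4 i0 i1 i2 i3) := by
  unfold D4; infer_instance

theorem D4.symm' {i0 i1 i2 i3 : Fin m} (h : D4 i0 i1 i2 i3) : D4 i0 i3 i2 i1 := by
  obtain ⟨h1, h2, h3, h4, h5, h6⟩ := h
  exact ⟨h3, h2, h1, h6.symm, h5.symm, h4.symm⟩

theorem rot_0 {i0 i1 i2 i3 : Fin m} (h : D4 i0 i1 i2 i3) : rot i0 i1 i2 i3 i0 = i1 := by
  obtain ⟨h1, h2, h3, h4, h5, h6⟩ := h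
  unfold rot
  rw [Equiv.Perm.mul_apply, Equiv.Perm.mul_apply, Equiv.swap_apply_of_ne_of_ne h2.symm h3.symm,
    Equiv.swap_apply_of_ne_of_ne h1.symm h2.symm, Equiv.swap_apply_left]

theorem rot_1 {i0 i1 i2 i3 : Fin m} (h : D4 i0 i1 i2 i3) : rot i0 i1 i2 i3 i1 = i2 := by
  obtain ⟨h1, h2, h3, h4, h5, h6⟩ := h
  unfold rot
  rw [Equiv.Perm.mul_apply, Equiv.Perm.mul_apply, Equiv.swap_apply_of_ne_of_ne h4.symm h5.symm,
    Equiv.swap_apply_left, Equiv.swap_apply_of_ne_of_ne h2 h4]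

theorem rot_2 {i0 i1 i2 i3 : Fin m} (h : D4 i0 i1 i2 i3) : rot i0 i1 i2 i3 i2 = i3 := by
  obtain ⟨h1, h2, h3, h4, h5, h6⟩ := h
  unfold rot
  rw [Equiv.Perm.mul_apply, Equiv.Perm.mul_apply, Equiv.swap_apply_left,
    Equiv.swap_apply_of_ne_of_ne h5 h6, Equiv.swap_apply_of_ne_of_ne h3 h5]

theorem rot_3 {i0 i1 i2 i3 : Fin m} : rot i0 i1 i2 i3 i3 = i0 := by
  unfold rot
  rw [Equiv.Perm.mul_apply, Equiv.Perm.mul_apply, Equiv.swap_apply_right,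
    Equiv.swap_apply_right, Equiv.swap_apply_right]

theorem rot_other {i0 i1 i2 i3 x : Fin m} (h0 : x ≠ i0) (h1 : x ≠ i1) (h2 : x ≠ i2) (h3 : x ≠ i3) :
    rot i0 i1 i2 i3 x = x := by
  unfold rot
  rw [Equiv.Perm.mul_apply, Equiv.Perm.mul_apply, Equiv.swap_apply_of_ne_of_ne h2 h3,
    Equiv.swap_apply_of_ne_of_ne h1 h2, Equiv.swap_apply_of_ne_of_ne h0 h1]

theorem rot_inv {i0 i1 i2 i3 : Fin m} (h : D4 i0 i1 i2 i3) :
    rot i0 i1 i2 i3 * rot i0 i3 i2 i1 = 1 := by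
  have h' := h.symm'
  ext x
  rw [Equiv.Perm.mul_apply, Equiv.Perm.one_apply]
  by_cases hx0 : x = i0
  · subst hx0; rw [rot_0 h', rot_3]
  by_cases hx3 : x = i3
  · subst hx3; rw [rot_1 h', rot_2 h]
  by_cases hx2 : x = i2
  · subst hx2; rw [rot_2 h', rot_1 h]
  by_cases hx1 : x = i1
  · subst hx1; rw [rot_3, rot_0 h]
  rw [rot_other hx0 hx3 hx2 hx1, rot_other hx0 hx1 hx2 hx3]

/-- product of the new weights -/
def T (W : Fin m → Fin m → ℝ) (f : Equiv.Perm (Fin m)) (i0 i1 i2 i3 : Fin m) : ℝ :=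
  W i0 (f i1) * W i1 (f i2) * W i2 (f i3) * W i3 (f i0)

theorem wt_split (W : Fin m → Fin m → ℝ) (f : Equiv.Perm (Fin m)) {i0 i1 i2 i3 : Fin m}
    (h : D4 i0 i1 i2 i3) :
    wt W f = (W i0 (f i0) * W i1 (f i1) * W i2 (f i2) * W i3 (f i3)) *
      ∏ i ∈ univ \ {i0, i1, i2, i3}, W i (f i) := by
  obtain ⟨h1, h2, h3, h4, h5, h6⟩ := h
  unfold wt
  rw [← prod_sdiff (subset_univ ({i0, i1, i2, i3} : Finset (Fin m))), mul_comm]
  congr 1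
  rw [prod_insert, prod_insert, prod_insert, prod_singleton]
  · ring
  · simpa using h6.symm
  · simp only [mem_insert, mem_singleton, not_or]; exact ⟨h4.symm, h5.symm⟩
  · simp only [mem_insert, mem_singleton, not_or]; exact ⟨h1.symm, h2.symm, h3.symm⟩

theorem wt_T (W : Fin m → Fin m → ℝ) (f : Equiv.Perm (Fin m)) {i0 i1 i2 i3 : Fin m}
    (h : D4 i0 i1 i2 i3) :
    wt W f * T W f i0 i1 i2 i3 =
      wt W (f * rot i0 i1 i2 i3) * T W (f * rot i0 i1 i2 i3) i0 i3 i2 i1 := by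
  rw [wt_split W f h, wt_split W (f * rot i0 i1 i2 i3) h]
  have hrest : ∏ i ∈ univ \ {i0, i1, i2, i3}, W i ((f * rot i0 i1 i2 i3) i) =
      ∏ i ∈ univ \ {i0, i1, i2, i3}, W i (f i) := by
    refine prod_congr rfl (fun i hi => ?_)
    rw [mem_sdiff] at hi
    have := hi.2
    simp only [mem_insert, mem_singleton, not_or] at this
    rw [Equiv.Perm.mul_apply, rot_other this.1 this.2.1 this.2.2.1 this.2.2.2]
  rw [hrest]
  unfold T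
  simp only [Equiv.Perm.mul_apply]
  rw [rot_0 h, rot_1 h, rot_2 h, rot_3]
  ring

/-- the exchange identity -/
theorem exchange (W : Fin m → Fin m → ℝ) (i0 : Fin m)
    (Ψ : Equiv.Perm (Fin m) → Equiv.Perm (Fin m) → ℝ) :
    ∑ f, ∑ i1, ∑ i2, ∑ i3, (if D4 i0 i1 i2 i3 then
      wt W f * T W f i0 i1 i2 i3 * Ψ f (f * rot i0 i1 i2 i3) else 0) =
    ∑ f, ∑ i1, ∑ i2, ∑ i3, (if D4 i0 i1 i2 i3 then
      wt W f * T W f i0 i1 i2 i3 * Ψ (f * rot i0 i1 i2 i3) f else 0) := by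
  have key : ∀ i1 i2 i3, ∑ f, (if D4 i0 i1 i2 i3 then
      wt W f * T W f i0 i1 i2 i3 * Ψ f (f * rot i0 i1 i2 i3) else 0) =
      ∑ f, (if D4 i0 i3 i2 i1 then
      wt W f * T W f i0 i3 i2 i1 * Ψ (f * rot i0 i3 i2 i1) f else 0) := by
    intro i1 i2 i3
    by_cases h : D4 i0 i1 i2 i3
    · have h' := h.symm'
      rw [← Equiv.sum_comp (Equiv.mulRight (rot i0 i1 i2 i3)) (fun f => (if D4 i0 i3 i2 i1 then
      wt W f * T W f i0 i3 i2 i1 * Ψ (f * rot i0 i3 i2 i1) f else 0))]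
      refine sum_congr rfl (fun f _ => ?_)
      rw [if_pos h, Equiv.coe_mulRight, if_pos h', wt_T W f h]
      congr 2
      rw [mul_assoc, rot_inv h, mul_one]
    · have h' : ¬ D4 i0 i3 i2 i1 := fun hc => h hc.symm'
      simp only [if_neg h, if_neg h']
  have lhs : ∑ f, ∑ i1, ∑ i2, ∑ i3, (if D4 i0 i1 i2 i3 then
      wt W f * T W f i0 i1 i2 i3 * Ψ f (f * rot i0 i1 i2 i3) else 0) =
      ∑ i1, ∑ i2, ∑ i3, ∑ f, (if D4 i0 i1 i2 i3 then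
      wt W f * T W f i0 i1 i2 i3 * Ψ f (f * rot i0 i1 i2 i3) else 0) := by
    rw [sum_comm]
    refine sum_congr rfl (fun i1 _ => ?_)
    rw [sum_comm]
    refine sum_congr rfl (fun i2 _ => ?_)
    rw [sum_comm]
  have rhs : ∑ f, ∑ i1, ∑ i2, ∑ i3, (if D4 i0 i1 i2 i3 then
      wt W f * T W f i0 i1 i2 i3 * Ψ (f * rot i0 i1 i2 i3) f else 0) =
      ∑ i1, ∑ i2, ∑ i3, ∑ f, (if D4 i0 i1 i2 i3 then
      wt W f * T W f i0 i1 i2 i3 * Ψ (f * rot i0 i1 i2 i3) f else 0) := by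
    rw [sum_comm]
    refine sum_congr rfl (fun i1 _ => ?_)
    rw [sum_comm]
    refine sum_congr rfl (fun i2 _ => ?_)
    rw [sum_comm]
  rw [lhs, rhs]
  calc ∑ i1, ∑ i2, ∑ i3, ∑ f, (if D4 i0 i1 i2 i3 then
      wt W f * T W f i0 i1 i2 i3 * Ψ f (f * rot i0 i1 i2 i3) else 0)
      = ∑ i1, ∑ i2, ∑ i3, ∑ f, (if D4 i0 i3 i2 i1 then
      wt W f * T W f i0 i3 i2 i1 * Ψ (f * rot i0 i3 i2 i1) f else 0) :=
        sum_congr rfl (fun i1 _ => sum_congr rfl (fun i2 _ => sum_congr rfl (fun i3 _ =>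
          key i1 i2 i3)))
    _ = ∑ i1, ∑ i3, ∑ i2, ∑ f, (if D4 i0 i3 i2 i1 then
      wt W f * T W f i0 i3 i2 i1 * Ψ (f * rot i0 i3 i2 i1) f else 0) :=
        sum_congr rfl (fun i1 _ => sum_comm)
    _ = ∑ i3, ∑ i1, ∑ i2, ∑ f, (if D4 i0 i3 i2 i1 then
      wt W f * T W f i0 i3 i2 i1 * Ψ (f * rot i0 i3 i2 i1) f else 0) := sum_comm
    _ = ∑ i3, ∑ i2, ∑ i1, ∑ f, (if D4 i0 i3 i2 i1 then
      wt W f * T W f i0 i3 i2 i1 * Ψ (f * rot i0 i3 i2 i1) f else 0) :=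
        sum_congr rfl (fun i1 _ => sum_comm)

end Pool.Agent.Helper34.AD
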