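import Pool.Agent.Helper34.AD.Process

set_option autoImplicit false

namespace Pool.Agent.Helper34.AD

open Finset Pool.Agent.Helper34.CP

variable {V : Type} [Fintype V] [DecidableEq V] {m : ℕ}

/-- numerical parameters -/
structure Par (m : ℕ) (C c5 lam θ C1 ζmax ρ₀ ω : ℝ) (z : ℕ → ℝ) (n0 : ℕ) : Prop where
  m0 : 0 < m
  C_one : 1 ≤ C
  hC : (m : ℝ) ≤ C * n0
  n2 : 2 ≤ n0
  hc5 : 0 ≤ c5
  hlam : 0 ≤ lam
  hθ : 0 ≤ θ
  hC1 : C1 = 2 * C * C
  z0 : ∀ k, 0 ≤ z k
  zs : ∀ k, z k + (c5 * (z k + θ * C1) + lam) / m ≤ z (k + 1)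
  zmax : ∀ k ≤ m, z k + θ * C1 ≤ ζmax
  ω1 : 1 ≤ ω
  ωb : ∀ b : ℕ, ω ^ b ≤ (8 : ℝ) ^ m → (b : ℝ) ≤ θ * m
  ρ0 : 0 ≤ ρ₀
  hρ : (m : ℝ) * ((ω - 1) * ρ₀) ≤ 1

theorem Par.zmono {C c5 lam θ C1 ζmax ρ₀ ω : ℝ} {z : ℕ → ℝ} {n0 : ℕ}
    (p : Par m C c5 lam θ C1 ζmax ρ₀ ω z n0) : Monotone z := by
  refine monotone_nat_of_le_succ (fun k => ?_)
  have h1 := p.zs k
  have h2 : 0 ≤ (c5 * (z k + θ * C1) + lam) / m := by
    have := p.z0 k
    have := p.hc5
    have := p.hlam
    have := p.hθ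
    have hC1 : 0 ≤ C1 := by rw [p.hC1]; have := p.C_one; positivity
    positivity
  linarith

/-- bounds on `X` and its mean -/
theorem dev_bound {W h : Fin m → Fin m → ℝ} {C H : ℝ} (hm : 0 < m) (hC : 1 ≤ C) (hH : 0 ≤ H)
    (hW0 : ∀ i c, 0 ≤ W i c) (hW : ∀ i c, W i c ≤ C / m)
    (hh0 : ∀ i c, 0 ≤ h i c) (hhH : ∀ i c, h i c ≤ H) (f : Equiv.Perm (Fin m)) :
    |XX h f - ∑ i, ∑ c, W i c * h i c| ≤ H * C * m := by
  have hm' : (0 : ℝ) < m := by exact_mod_cast hm
  have h1 : 0 ≤ XX h f := sum_nonneg (fun i _ => hh0 _ _)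
  have h2 : XX h f ≤ H * m := by
    unfold XX
    calc ∑ i, h i (f i) ≤ ∑ i : Fin m, H := sum_le_sum (fun i _ => hhH _ _)
      _ = H * m := by rw [sum_const, card_univ, Fintype.card_fin, nsmul_eq_mul]; ring
  have h3 : 0 ≤ ∑ i, ∑ c, W i c * h i c :=
    sum_nonneg (fun i _ => sum_nonneg (fun c _ => mul_nonneg (hW0 _ _) (hh0 _ _)))
  have h4 : ∑ i, ∑ c, W i c * h i c ≤ H * C * m := by
    calc ∑ i, ∑ c, W i c * h i c ≤ ∑ i : Fin m, ∑ c : Fin m, (C / m) * H :=
          sum_le_sum (fun i _ => sum_le_sum (fun c _ =>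
            mul_le_mul (hW i c) (hhH i c) (hh0 i c) (by positivity)))
      _ = H * C * m := by
          simp only [sum_const, card_univ, Fintype.card_fin, nsmul_eq_mul]
          field_simp
  have h5 : H * m ≤ H * C * m := by
    have : 0 ≤ H * m := by positivity
    nlinarith
  rw [abs_le]
  constructor <;> linarith

theorem stepP (G : SimpleGraph V) [DecidableRel G.Adj] (σ : V → V → Equiv.Perm (Fin m))
    (hσ : ∀ u v, G.Adj u v → σ v u = (σ u v).symm)
    (Y : Finset V) (base : V → Fin m → Fin m → ℝ) (e : V → ℕ)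
    {C c5 lam θ C1 ζmax ρ₀ ω : ℝ} {z : ℕ → ℝ} {n0 : ℕ} (p : Par m C c5 lam θ C1 ζmax ρ₀ ω z n0)
    (K0 : ℕ)
    (hdeg : ∀ v, v ∉ Y → e v + dg G (univ \ Y) v + n0 ≤ m)
    (hdeg2 : ∀ v, v ∉ Y → dg G univ v ≤ K0)
    (hconc : ∀ v, v ∉ Y → Conc (base v) K0 C c5 lam (2 * C) ζmax ρ₀)
    (U : Finset V) (π : V → Equiv.Perm (Fin m)) (M : V → Fin m → Fin m → ℝ)
    (bad : V → Finset (Fin m) × Finset (Fin m) → ℕ)
    (I : Inv G σ Y base e z C1 ω U π M bad)
    (u : V) (huU : u ∉ U)
    (hmin : ∀ v, v ∉ U → e u + dg G (U \ Y) u ≤ e v + dg G (U \ Y) v) :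
    ∃ π' M' bad', Inv G σ Y base e z C1 ω (insert u U) π' M' bad' := by
  classical
  have hm := p.m0
  have hm' : (0 : ℝ) < m := by exact_mod_cast hm
  have hC := p.C_one
  have hC0 : 0 ≤ C := by linarith
  have hC1n : 0 ≤ C1 := by rw [p.hC1]; positivity
  have hθ := p.hθ
  have hω := p.ω1
  have huY : u ∉ Y := fun h => huU (I.sub h)
  -- degrees
  have hk : ∀ v, v ∉ U → e v + dg G (U \ Y) v + n0 ≤ m := by
    intro v hv
    have h1 := hdeg v (fun h => hv (I.sub h))
    have h2 : dg G (U \ Y) v ≤ dg G (univ \ Y) v :=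
      dg_mono G (sdiff_subset_sdiff (subset_univ _) (Subset.refl _)) v
    omega
  have hn : ∀ v, v ∉ U → (n0 : ℝ) ≤ (m : ℝ) - ((e v + dg G (U \ Y) v : ℕ) : ℝ) := by
    intro v hv
    have := hk v hv
    have h2 : ((e v + dg G (U \ Y) v : ℕ) : ℝ) + (n0 : ℝ) ≤ (m : ℝ) := by exact_mod_cast this
    linarith
  have hn02 : (2 : ℝ) ≤ n0 := by exact_mod_cast p.n2
  have hMC : ∀ v, v ∉ U → ∀ i c, M v i c ≤ C := by
    intro v hv i c
    have h1 := I.upper v hv i c
    have h2 := hn v hv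
    have h3 : M v i c * n0 ≤ C * n0 := by
      have := mul_le_mul_of_nonneg_left h2 (I.nn v hv i c)
      linarith [p.hC]
    exact le_of_mul_le_mul_right h3 (by linarith)
  -- the bad counts
  have hbadθ : ∀ v, v ∉ U → ∀ R, (bad v R : ℝ) ≤ θ * m := by
    intro v hv R
    refine p.ωb _ ?_
    have h1 := I.pot v hv
    have hω0 : (0 : ℝ) ≤ ω := by linarith
    have h2 : ω ^ (bad v R) ≤ ∑ R : Finset (Fin m) × Finset (Fin m), ω ^ (bad v R) :=
      single_le_sum (f := fun R => ω ^ (bad v R)) (fun R _ => by positivity) (mem_univ R)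
    have h3 : (4 : ℝ) ^ m * 2 ^ (dg G (U \ Y) v) ≤ 4 ^ m * 2 ^ m := by
      refine mul_le_mul_of_nonneg_left ?_ (by positivity)
      refine pow_le_pow_right₀ (by norm_num) ?_
      have := hk v hv
      omega
    have h4 : (4 : ℝ) ^ m * 2 ^ m = 8 ^ m := by rw [← mul_pow]; norm_num
    linarith
  set ku := e u + dg G (U \ Y) u with hku
  set ζ := z ku + θ * C1 with hζ
  have hkum : ku ≤ m := by have := hk u huU; omega
  have hζ0 : 0 ≤ ζ := add_nonneg (p.z0 _) (mul_nonneg hθ hC1n)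
  obtain ⟨hpos, hX⟩ := hconc u huY (M u) ζ hζ0 (p.zmax ku hkum) (I.nn u huU) (hMC u huU)
    (by
      intro i c
      by_cases h : Adm G σ U π u i c
      · exact Or.inr (I.lower u huU i c h)
      · exact Or.inl (I.zero u huU i c h))
    (by
      intro i
      refine le_trans ?_ ((nonadm_row G σ U π u i).trans
        ((dg_mono G (subset_univ U) u).trans (hdeg2 u huY)))
      refine card_le_card ?_
      intro c hc
      rw [mem_filter] at hc ⊢
      refine ⟨hc.1, fun h => ?_⟩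
      have := I.pos u huU i c h
      linarith [hc.2])
    (by
      intro c
      refine le_trans ?_ ((nonadm_col G σ U π u c).trans
        ((dg_mono G (subset_univ U) u).trans (hdeg2 u huY)))
      refine card_le_card ?_
      intro i hi
      rw [mem_filter] at hi ⊢
      refine ⟨hi.1, fun h => ?_⟩
      have := I.pos u huU i c h
      linarith [hi.2])
    (by
      intro A B
      refine (I.cut u huU A B).trans ?_
      have h1 := mul_le_mul_of_nonneg_right (hbadθ u huU (A, B)) (by positivity : 0 ≤ C1 * (m : ℝ))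
      rw [hζ]
      nlinarith)
  set W : Fin m → Fin m → ℝ := fun i c => M u i c / m with hW
  have hW0 : ∀ i c, 0 ≤ W i c := fun i c => div_nonneg (I.nn u huU i c) hm'.le
  have hWn : ∀ i c, W i c ≤ 1 / ((m : ℝ) - (ku : ℝ)) := by
    intro i c
    have h1 := I.upper u huU i c
    have h2 := hn u huU
    rw [hW]
    simp only
    rw [div_le_div_iff₀ hm' (by linarith)]
    linarith
  have hWC : ∀ i c, W i c ≤ C / m := fun i c => div_le_div_of_nonneg_right (hMC u huU i c) hm'.le
  have hWhalf : ∀ i c, W i c ≤ 1 / 2 := by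
    intro i c
    refine (hWn i c).trans ?_
    have h2 := hn u huU
    exact one_div_le_one_div_of_le (by norm_num) (by linarith)
  have hW1 : ∀ i c, W i c < 1 := fun i c => by have := hWhalf i c; linarith
  -- neighbours to be updated
  set N : Finset V := univ.filter (fun v => v ∉ U ∧ G.Adj u v) with hN
  have hNv : ∀ v ∈ N, v ∉ U ∧ G.Adj u v := fun v hv => (mem_filter.1 hv).2
  have hNcard : N.card ≤ m := by
    have h1 : N.card ≤ dg G (univ \ Y) u := by
      unfold dg
      refine card_le_card ?_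
      intro v hv
      rw [mem_filter, mem_sdiff]
      exact ⟨⟨mem_univ _, fun h => (hNv v hv).1 (I.sub h)⟩, (hNv v hv).2.symm⟩
    have := hdeg u huY
    omega
  set TT : V → Finset (Fin m) × Finset (Fin m) → Fin m → Fin m → ℝ :=
    fun v R => tst (M v) W (σ u v) R.1 R.2 with hTT
  have hT0 : ∀ v, v ∉ U → ∀ R i c, 0 ≤ TT v R i c := fun v hv R i c =>
    tst_nn _ _ _ _ _ (I.nn v hv) hW1 i c
  have hTU : ∀ v, v ∉ U → ∀ R i c, TT v R i c ≤ 2 * C := fun v hv R i c =>
    tst_ub _ _ _ _ _ C hC0 (hMC v hv) hWhalf i c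
  obtain ⟨f, hf, hpotf⟩ := avg_w (wt W) (wt_nn hW0) hpos N univ bad
    (fun v R f => (c5 * ζ + lam) * m ≤ |XX (TT v R) f - ∑ i, ∑ c, W i c * TT v R i c|)
    (fun v => (4 : ℝ) ^ m * 2 ^ (dg G (U \ Y) v)) ω ρ₀ 1 hω (fun v _ => by positivity)
    (fun v hv => I.pot v (hNv v hv).1)
    (by
      intro v hv R _
      exact hX (TT v R) (hT0 v (hNv v hv).1 R) (hTU v (hNv v hv).1 R))
    p.ρ0
    (by
      refine le_trans ?_ p.hρ
      refine mul_le_mul_of_nonneg_right (by exact_mod_cast hNcard) ?_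
      exact mul_nonneg (by linarith) p.ρ0)
  -- `f` is admissible
  have hfadm : ∀ i, Adm G σ U π u i (f i) := by
    intro i
    by_contra hc
    have h0 := I.zero u huU i (f i) hc
    have : wt W f = 0 := prod_eq_zero (mem_univ i) (by rw [hW]; simp [h0])
    linarith
  refine ⟨Function.update π u f, fun v => if G.Adj u v then upd (M v) W (σ u v) f else M v,
    fun v R => if G.Adj u v then bad v R + (if (c5 * ζ + lam) * m ≤
      |XX (TT v R) f - ∑ i, ∑ c, W i c * TT v R i c| then 1 else 0) else bad v R, ?_⟩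
  have hsplit : ∀ v, v ∉ insert u U → v ∉ U ∧ v ≠ u := by
    intro v hv
    rw [mem_insert, not_or] at hv
    exact ⟨hv.2, hv.1⟩
  have hins : insert u U \ Y = insert u (U \ Y) := by
    rw [insert_sdiff_of_notMem _ huY]
  have huUY : u ∉ U \ Y := fun h => huU (mem_sdiff.1 h).1
  have hdT : ∀ v, dg G (insert u U \ Y) v = dg G (U \ Y) v + if G.Adj u v then 1 else 0 := by
    intro v
    rw [hins, dg_insert G _ _ _ huUY]
  constructor
  · exact I.sub.trans (subset_insert _ _)
  · exact packOn_insert G σ hσ U π I.pack u huU f hfadm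
  · -- nn
    intro v hv i c
    obtain ⟨hvU, _⟩ := hsplit v hv
    split_ifs
    · exact upd_nn _ _ _ _ (I.nn v hvU) hW1 i c
    · exact I.nn v hvU i c
  · -- zero
    intro v hv i c hc
    obtain ⟨hvU, _⟩ := hsplit v hv
    rw [adm_insert G σ U π u huU f v i c, not_and_or] at hc
    split_ifs with huv
    · rcases hc with hc | hc
      · unfold upd
        rw [I.zero v hvU i c hc]
        simp
      · push Not at hc
        unfold upd
        rw [if_pos hc.2]
    · rcases hc with hc | hc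
      · exact I.zero v hvU i c hc
      · exact absurd (fun h => absurd h huv) hc
  · -- pos
    intro v hv i c hc
    obtain ⟨hvU, _⟩ := hsplit v hv
    rw [adm_insert G σ U π u huU f v i c] at hc
    split_ifs with huv
    · exact (I.pos v hvU i c hc.1).trans_le
        (upd_ge _ _ _ _ (I.nn v hvU) hW0 hW1 i c (hc.2 huv))
    · exact I.pos v hvU i c hc.1
  · -- lower
    intro v hv i c hc
    obtain ⟨hvU, _⟩ := hsplit v hv
    rw [adm_insert G σ U π u huU f v i c] at hc
    split_ifs with huv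
    · exact (I.lower v hvU i c hc.1).trans
        (upd_ge _ _ _ _ (I.nn v hvU) hW0 hW1 i c (hc.2 huv))
    · exact I.lower v hvU i c hc.1
  · -- upper
    intro v hv i c
    obtain ⟨hvU, _⟩ := hsplit v hv
    rw [hdT v]
    split_ifs with huv
    · have h1 := hn v hvU
      have h2 := hmin v hvU
      have h3 : (ku : ℝ) ≤ ((e v + dg G (U \ Y) v : ℕ) : ℝ) := by exact_mod_cast h2
      have h4 := upd_ub (M v) W (σ u v) f ((m : ℝ) - ((e v + dg G (U \ Y) v : ℕ) : ℝ))
        (by linarith) (I.upper v hvU) (fun i c => (hWn i c).trans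
          (one_div_le_one_div_of_le (by linarith) (by linarith))) i c
      have e1 : (m : ℝ) - ((e v + (dg G (U \ Y) v + 1) : ℕ) : ℝ) =
        (m : ℝ) - ((e v + dg G (U \ Y) v : ℕ) : ℝ) - 1 := by push_cast; ring
      rw [e1]
      exact h4
    · rw [Nat.add_zero]
      exact I.upper v hvU i c
  · -- pot
    intro v hv
    obtain ⟨hvU, _⟩ := hsplit v hv
    rw [hdT v]
    by_cases huv : G.Adj u v
    · simp only [if_pos huv]
      have h1 := hpotf v (by rw [hN, mem_filter]; exact ⟨mem_univ _, hvU, huv⟩)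
      rw [pow_succ]
      linarith
    · simp only [if_neg huv, Nat.add_zero]
      exact I.pot v hvU
  · -- cut
    intro v hv A B
    obtain ⟨hvU, _⟩ := hsplit v hv
    rw [hdT v]
    by_cases huv : G.Adj u v
    · simp only [if_pos huv]
      have h1 := I.cut v hvU A B
      have h2 := sum_upd (M v) W (σ u v) f A B hW1
      set D := XX (TT v (A, B)) f - ∑ i, ∑ c, W i c * TT v (A, B) i c with hD
      have h3 : ∑ i ∈ A, ∑ c ∈ B, (upd (M v) W (σ u v) f i c - base v i c) =
          ∑ i ∈ A, ∑ c ∈ B, (M v i c - base v i c) - D := by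
        simp only [sum_sub_distrib]
        rw [h2, hD]
        simp only [hTT]
        ring
      rw [h3]
      have h4 : |∑ i ∈ A, ∑ c ∈ B, (M v i c - base v i c) - D| ≤
          |∑ i ∈ A, ∑ c ∈ B, (M v i c - base v i c)| + |D| := abs_sub _ _
      have h5 : |D| ≤ 2 * C * C * m :=
        dev_bound hm hC (by positivity) hW0 hWC (hT0 v hvU (A, B)) (hTU v hvU (A, B)) f
      have h6 := p.zs (e v + dg G (U \ Y) v)
      have h7 : z ku ≤ z (e v + dg G (U \ Y) v) := p.zmono (hmin v hvU)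
      have h8 : z (e v + dg G (U \ Y) v) * (m : ℝ) ^ 2 + (c5 * ζ + lam) * m ≤
          z (e v + (dg G (U \ Y) v + 1)) * (m : ℝ) ^ 2 := by
        have h9 : (z (e v + dg G (U \ Y) v) + (c5 * (z (e v + dg G (U \ Y) v) + θ * C1) + lam) / m) *
            (m : ℝ) ^ 2 ≤ z (e v + dg G (U \ Y) v + 1) * (m : ℝ) ^ 2 :=
          mul_le_mul_of_nonneg_right h6 (by positivity)
        have e1 : (z (e v + dg G (U \ Y) v) + (c5 * (z (e v + dg G (U \ Y) v) + θ * C1) + lam) / m) *
            (m : ℝ) ^ 2 = z (e v + dg G (U \ Y) v) * (m : ℝ) ^ 2 +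
              (c5 * (z (e v + dg G (U \ Y) v) + θ * C1) + lam) * m := by
          field_simp
        rw [e1] at h9
        have h10 : c5 * ζ ≤ c5 * (z (e v + dg G (U \ Y) v) + θ * C1) :=
          mul_le_mul_of_nonneg_left (by rw [hζ]; linarith) p.hc5
        have h11 : (c5 * ζ + lam) * m ≤ (c5 * (z (e v + dg G (U \ Y) v) + θ * C1) + lam) * m :=
          mul_le_mul_of_nonneg_right (by linarith) hm'.le
        rw [← Nat.add_assoc]
        linarith
      have h12 : 0 ≤ (c5 * ζ + lam) * m :=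
        mul_nonneg (add_nonneg (mul_nonneg p.hc5 hζ0) p.hlam) hm'.le
      by_cases hb : (c5 * ζ + lam) * m ≤ |D|
      · rw [if_pos hb]
        push_cast
        rw [p.hC1] at h1 ⊢
        nlinarith
      · rw [if_neg hb]
        have e0 : ((bad v (A, B) + 0 : ℕ) : ℝ) = (bad v (A, B) : ℝ) := by simp
        rw [e0]
        push Not at hb
        linarith
    · simp only [if_neg huv, Nat.add_zero]
      exact I.cut v hvU A B

/-- The whole process. -/
theorem process (G : SimpleGraph V) [DecidableRel G.Adj] (σ : V → V → Equiv.Perm (Fin m))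
    (hσ : ∀ u v, G.Adj u v → σ v u = (σ u v).symm)
    (Y : Finset V) (π0 : V → Equiv.Perm (Fin m)) (h0 : PackOn G σ Y π0)
    (base : V → Fin m → Fin m → ℝ) (e : V → ℕ)
    {C c5 lam θ C1 ζmax ρ₀ ω : ℝ} {z : ℕ → ℝ} {n0 : ℕ} (p : Par m C c5 lam θ C1 ζmax ρ₀ ω z n0)
    (K0 : ℕ)
    (hnn : ∀ v, v ∉ Y → ∀ i c, 0 ≤ base v i c)
    (hzero : ∀ v, v ∉ Y → ∀ i c, ¬ Adm G σ Y π0 v i c → base v i c = 0)
    (hpos : ∀ v, v ∉ Y → ∀ i c, Adm G σ Y π0 v i c → 0 < base v i c)
    (hup : ∀ v, v ∉ Y → ∀ i c, base v i c * ((m : ℝ) - (e v : ℝ)) ≤ m)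
    (hdeg : ∀ v, v ∉ Y → e v + dg G (univ \ Y) v + n0 ≤ m)
    (hdeg2 : ∀ v, v ∉ Y → dg G univ v ≤ K0)
    (hconc : ∀ v, v ∉ Y → Conc (base v) K0 C c5 lam (2 * C) ζmax ρ₀) :
    ∃ π, PackOn G σ univ π := by
  classical
  have main : ∀ n, ∀ (U : Finset V) (π : V → Equiv.Perm (Fin m)) (M : V → Fin m → Fin m → ℝ)
      (bad : V → Finset (Fin m) × Finset (Fin m) → ℕ), (univ \ U).card = n →
      Inv G σ Y base e z C1 ω U π M bad → ∃ π, PackOn G σ univ π := by
    intro n
    induction n with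
    | zero =>
      intro U π M bad hc I
      have : U = univ := by
        rw [card_eq_zero, sdiff_eq_empty_iff_subset] at hc
        exact univ_subset_iff.1 hc
      subst this
      exact ⟨π, I.pack⟩
    | succ n ih =>
      intro U π M bad hc I
      have hne : (univ \ U).Nonempty := by rw [← card_pos]; omega
      obtain ⟨u, hu, hmin⟩ := exists_min_image (univ \ U) (fun v => e v + dg G (U \ Y) v) hne
      have huU : u ∉ U := (mem_sdiff.1 hu).2
      obtain ⟨π', M', bad', I'⟩ := stepP G σ hσ Y base e p K0 hdeg hdeg2 hconc U π M bad I u huU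
        (fun v hv => hmin v (mem_sdiff.2 ⟨mem_univ _, hv⟩))
      refine ih (insert u U) π' M' bad' ?_ I'
      have h1 : univ \ insert u U = (univ \ U).erase u := by
        ext w; simp [not_or]
      rw [h1, card_erase_of_mem hu, hc]
      rfl
  refine main _ Y π0 base (fun _ _ => 0) rfl ?_
  constructor
  · exact Subset.refl _
  · exact h0
  · exact hnn
  · exact hzero
  · exact hpos
  · exact fun v _ i c _ => le_rfl
  · intro v hv i c
    have : dg G (Y \ Y) v = 0 := by rw [sdiff_self]; unfold dg; simp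
    rw [this, Nat.add_zero]
    exact hup v hv i c
  · intro v hv
    have : dg G (Y \ Y) v = 0 := by rw [sdiff_self]; unfold dg; simp
    rw [this]
    simp only [pow_zero, sum_const, card_univ, Fintype.card_prod, Fintype.card_finset,
      Fintype.card_fin, nsmul_eq_mul, mul_one]
    push_cast
    rw [← mul_pow]
    norm_num
  · intro v hv A B
    have hm' : (0 : ℝ) < m := by exact_mod_cast p.m0
    have := p.z0 (e v + dg G (Y \ Y) v)
    simp only [sub_self, sum_const_zero, abs_zero, Nat.cast_zero, zero_mul, add_zero]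
    positivity

end Pool.Agent.Helper34.AD
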