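import Pool.Agent.Helper34.AD.Mgf

set_option autoImplicit false

namespace Pool.Agent.Helper34.AD

open Finset

variable {m : ℕ}

/-- update of the table of weights `M` of a neighbour, `s` being the cover permutation -/
noncomputable def upd (M W : Fin m → Fin m → ℝ) (s f : Equiv.Perm (Fin m)) : Fin m → Fin m → ℝ :=
  fun i c => if c = s (f i) then 0 else M i c / (1 - W i (s.symm c))

/-- test function -/
noncomputable def tst (M W : Fin m → Fin m → ℝ) (s : Equiv.Perm (Fin m)) (A B : Finset (Fin m)) :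
    Fin m → Fin m → ℝ :=
  fun i c => if i ∈ A ∧ s c ∈ B then M i (s c) / (1 - W i c) else 0

theorem sum_box (s : Equiv.Perm (Fin m)) (A B : Finset (Fin m)) (F : Fin m → Fin m → ℝ) :
    ∑ i ∈ A, ∑ c ∈ B, F i c = ∑ i, ∑ c, (if i ∈ A ∧ s c ∈ B then F i (s c) else 0) := by
  have h1 : ∑ i ∈ A, ∑ c ∈ B, F i c = ∑ i, (if i ∈ A then ∑ c ∈ B, F i c else 0) := by
    rw [← sum_filter]
    congr 1
    ext; simp
  rw [h1]
  refine sum_congr rfl (fun i _ => ?_)
  by_cases hi : i ∈ A
  · rw [if_pos hi]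
    have h2 : ∑ c ∈ B, F i c = ∑ c, (if c ∈ B then F i c else 0) := by
      rw [← sum_filter]
      congr 1
      ext; simp
    rw [h2, ← Equiv.sum_comp s (fun c => if c ∈ B then F i c else 0)]
    exact sum_congr rfl (fun c _ => by simp [hi])
  · rw [if_neg hi]
    simp [hi]

theorem sum_upd (M W : Fin m → Fin m → ℝ) (s f : Equiv.Perm (Fin m)) (A B : Finset (Fin m))
    (hW : ∀ i c, W i c < 1) :
    ∑ i ∈ A, ∑ c ∈ B, upd M W s f i c = ∑ i ∈ A, ∑ c ∈ B, M i c +
      ∑ i, ∑ c, W i c * tst M W s A B i c - XX (tst M W s A B) f := by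
  rw [sum_box s A B (upd M W s f), sum_box s A B M]
  unfold XX
  rw [← sum_add_distrib, ← sum_sub_distrib]
  refine sum_congr rfl (fun i _ => ?_)
  have h1 : tst M W s A B i (f i) = ∑ c, (if c = f i then tst M W s A B i c else 0) := by
    rw [sum_ite_eq' univ (f i) (fun c => tst M W s A B i c), if_pos (mem_univ _)]
  rw [h1, ← sum_add_distrib, ← sum_sub_distrib]
  refine sum_congr rfl (fun c _ => ?_)
  unfold tst upd
  have hne : (1 : ℝ) - W i c ≠ 0 := by have := hW i c; linarith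
  by_cases hc : i ∈ A ∧ s c ∈ B
  · simp only [if_pos hc]
    by_cases hcf : c = f i
    · subst hcf
      simp only [if_true]
      field_simp
      ring
    · have : s c ≠ s (f i) := fun h => hcf (s.injective h)
      rw [if_neg this, if_neg hcf, Equiv.symm_apply_apply]
      field_simp
      ring
  · simp only [if_neg hc]
    split_ifs <;> simp

theorem tst_nn (M W : Fin m → Fin m → ℝ) (s : Equiv.Perm (Fin m)) (A B : Finset (Fin m))
    (hM : ∀ i c, 0 ≤ M i c) (hW : ∀ i c, W i c < 1) (i c : Fin m) : 0 ≤ tst M W s A B i c := by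
  unfold tst
  split_ifs
  · exact div_nonneg (hM _ _) (by have := hW i c; linarith)
  · exact le_rfl

theorem tst_ub (M W : Fin m → Fin m → ℝ) (s : Equiv.Perm (Fin m)) (A B : Finset (Fin m)) (C : ℝ)
    (hC : 0 ≤ C) (hM : ∀ i c, M i c ≤ C) (hW : ∀ i c, W i c ≤ 1 / 2)
    (i c : Fin m) : tst M W s A B i c ≤ 2 * C := by
  unfold tst
  split_ifs
  · rw [div_le_iff₀ (by have := hW i c; linarith)]
    have := hW i c
    nlinarith [hM i (s c)]
  · linarith

theorem upd_nn (M W : Fin m → Fin m → ℝ) (s f : Equiv.Perm (Fin m))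
    (hM : ∀ i c, 0 ≤ M i c) (hW : ∀ i c, W i c < 1) (i c : Fin m) : 0 ≤ upd M W s f i c := by
  unfold upd
  split_ifs
  · exact le_rfl
  · exact div_nonneg (hM _ _) (by have := hW i (s.symm c); linarith)

theorem upd_ge (M W : Fin m → Fin m → ℝ) (s f : Equiv.Perm (Fin m))
    (hM : ∀ i c, 0 ≤ M i c) (hW0 : ∀ i c, 0 ≤ W i c) (hW : ∀ i c, W i c < 1) (i c : Fin m)
    (hc : c ≠ s (f i)) : M i c ≤ upd M W s f i c := by
  unfold upd
  rw [if_neg hc, le_div_iff₀ (by have := hW i (s.symm c); linarith)]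
  have := hW0 i (s.symm c)
  nlinarith [hM i c]

/-- growth of the weights: `M ≤ m / n`, `W ≤ 1 / n` gives `upd ≤ m / (n - 1)` -/
theorem upd_ub (M W : Fin m → Fin m → ℝ) (s f : Equiv.Perm (Fin m)) (n : ℝ) (hn : 1 < n)
    (hM : ∀ i c, M i c * n ≤ m) (hW : ∀ i c, W i c ≤ 1 / n) (i c : Fin m) :
    upd M W s f i c * (n - 1) ≤ m := by
  unfold upd
  split_ifs
  · simp
  · have h1 : 1 - 1 / n ≤ 1 - W i (s.symm c) := by have := hW i (s.symm c); linarith
    have h2 : 0 < 1 - 1 / n := by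
      rw [sub_pos, div_lt_one (by linarith)]
      exact hn
    have h3 : (n - 1) = n * (1 - 1 / n) := by field_simp
    rw [h3, div_mul_eq_mul_div, div_le_iff₀ (by linarith)]
    have h4 : (0 : ℝ) ≤ m := Nat.cast_nonneg m
    calc M i c * (n * (1 - 1 / n)) = (M i c * n) * (1 - 1 / n) := by ring
      _ ≤ m * (1 - 1 / n) := mul_le_mul_of_nonneg_right (hM i c) h2.le
      _ ≤ m * (1 - W i (s.symm c)) := mul_le_mul_of_nonneg_left h1 h4

end Pool.Agent.Helper34.AD
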